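import Pool.Agent.H630R2.LR.M1

/-!
Running one protocol after the other.
-/

set_option autoImplicit false

namespace Pool.Agent.K4H93.LRP

open Pool.Agent.H630R2.LR

theorem iter_head {X Y : Type*} (owner : List Bool → Bool) (a : List Bool → X → Bool)
    (b : List Bool → Y → Bool) (v : Bool) (x : X) (y : Y) (n : ℕ) (t : List Bool) :
    Nat.iterate (fun t : List Bool => t ++ [if owner t then a t x else b t y]) n (v :: t)
      = v :: Nat.iterate (fun t : List Bool => t ++
          [if owner (v :: t) then a (v :: t) x else b (v :: t) y]) n t := by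
  induction n generalizing t with
  | zero => rfl
  | succ n ih =>
    rw [Function.iterate_succ_apply, Function.iterate_succ_apply, ← ih]
    rfl

theorem split {X Y : Type*} {F : X → Y → Bool} {c : ℕ} (h : Proto F (c + 1)) :
    (∃ (α : X → Bool) (Fv : Bool → X → Y → Bool), (∀ v, Proto (Fv v) c) ∧
      ∀ x y, F x y = Fv (α x) x y) ∨
    (∃ (β : Y → Bool) (Fv : Bool → X → Y → Bool), (∀ v, Proto (Fv v) c) ∧
      ∀ x y, F x y = Fv (β y) x y) := by
  obtain ⟨owner, a, b, out, hout⟩ := h
  have key : ∀ v x y, out (Nat.iterate (fun t : List Bool => t ++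
      [if owner t then a t x else b t y]) c [v]) =
      out (v :: Nat.iterate (fun t : List Bool => t ++
          [if owner (v :: t) then a (v :: t) x else b (v :: t) y]) c []) := by
    intro v x y
    rw [← iter_head owner a b v x y c []]
  have hP : ∀ v, Proto (fun x y => out (Nat.iterate (fun t : List Bool => t ++
      [if owner t then a t x else b t y]) c [v])) c := by
    intro v
    exact ⟨fun t => owner (v :: t), fun t => a (v :: t), fun t => b (v :: t),
      fun t => out (v :: t), fun x y => (key v x y).symm⟩
  by_cases ho : owner [] = true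
  · left
    refine ⟨a [], _, hP, fun x y => ?_⟩
    rw [← hout x y, Function.iterate_succ_apply]
    simp [ho]
  · right
    refine ⟨b [], _, hP, fun x y => ?_⟩
    rw [← hout x y, Function.iterate_succ_apply]
    simp [ho]

theorem bind {X Y : Type*} {c d : ℕ} (G : Bool → X → Y → Bool) (hG : ∀ v, Proto (G v) d) :
    ∀ {F : X → Y → Bool}, Proto F c → Proto (fun x y => G (F x y) x y) (d + c) := by
  induction c with
  | zero =>
    intro F h
    obtain ⟨owner, a, b, out, hout⟩ := h
    have h1 : (fun x y => G (F x y) x y) = G (out []) := by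
      funext x y
      rw [← hout x y]
      rfl
    rw [h1]
    exact hG _
  | succ c ih =>
    intro F h
    rcases split h with ⟨α, Fv, h1, h2⟩ | ⟨β, Fv, h1, h2⟩
    · exact Proto.alice _ α (fun v x y => G (Fv v x y) x y) (d + c) (fun v => ih (h1 v))
        (fun x y => by rw [h2])
    · exact Proto.bob _ β (fun v x y => G (Fv v x y) x y) (d + c) (fun v => ih (h1 v))
        (fun x y => by rw [h2])

theorem compl {X Y : Type*} {F : X → Y → Bool} {c : ℕ} (h : Proto F c) :
    Proto (fun x y => !F x y) c := by
  obtain ⟨owner, a, b, out, hout⟩ := h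
  exact ⟨owner, a, b, fun t => !out t, fun x y => congrArg (fun v => !v) (hout x y)⟩

end Pool.Agent.K4H93.LRP
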