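import Pool.Agent.K4H93.LRP.Mixed

/-!
Boolean affine functionals on sets of 0-1-vectors which are closed under a coordinatewise operation.
-/

set_option autoImplicit false
set_option linter.unusedSectionVars false

namespace Pool.Agent.K4H93.LRP

open Finset Pool.Agent.H630R2.LR

theorem proj_affine {k : ℕ} {f : (Fin k → Bool) → Bool} (h : IsProj f) : Affine f := by
  obtain ⟨j, hj⟩ := h
  refine ⟨0, fun l => if l = j then 1 else 0, fun v => ?_⟩
  rw [hj, zero_add, sum_eq_single j]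
  · simp
  · intro l _ hl
    beta_reduce
    rw [if_neg hl, zero_mul]
  · intro h
    exact absurd (mem_univ _) h

section

variable {X Y ι : Type*} [Fintype X] [Fintype Y] [Fintype ι] [DecidableEq ι]

open Classical in
theorem flip (F : X → Y → Bool) (ψ : Y → ι → Bool) (c : X → ℝ) (A : X → ι → ℝ)
    (hrep : ∀ x y, bv (F x y) = c x + ∑ i, A x i * bv (ψ y i))
    (t : ι → Bool → Bool → Bool → Bool)
    (hcl : ∀ y1 y2 y3, ∃ y, ∀ i, ψ y i = t i (ψ y1 i) (ψ y2 i) (ψ y3 i))
    (ht : ∀ i, (∀ a b c, t i a b c = (a && b && c)) ∨ (∀ a b c, t i a b c = (a || b || c)) ∨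
        Maj (t i) ∨ Min3 (t i)) :
    ∃ (ψ' : Y → ι → Bool) (c' : X → ℝ) (A' : X → ι → ℝ) (I : Finset ι),
      (∀ x y, bv (F x y) = c' x + ∑ i, A' x i * bv (ψ' y i)) ∧
      Disjoint I (univ.filter fun i => Min3 (t i)) ∧
      ∀ y1 y2 y3, ∃ y, ∀ i, ψ' y i = if i ∈ I then (ψ' y1 i && ψ' y2 i && ψ' y3 i)
        else if i ∈ univ.filter (fun i => Min3 (t i)) then
          xor (ψ' y1 i) (xor (ψ' y2 i) (ψ' y3 i))
        else maj (ψ' y1 i) (ψ' y2 i) (ψ' y3 i) := by
  set O : Finset ι := univ.filter fun i => ∀ a b c, t i a b c = (a || b || c) with hO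
  set I : Finset ι := univ.filter fun i => (∀ a b c, t i a b c = (a && b && c)) ∨
    (∀ a b c, t i a b c = (a || b || c)) with hI
  refine ⟨fun y i => if i ∈ O then !ψ y i else ψ y i, fun x => c x + ∑ i ∈ O, A x i,
    fun x i => if i ∈ O then -A x i else A x i, I, fun x y => ?_, ?_, fun y1 y2 y3 => ?_⟩
  · rw [hrep, add_assoc]
    congr 1
    have e : ∑ i ∈ O, A x i = ∑ i, if i ∈ O then A x i else 0 := by
      rw [sum_ite_mem, univ_inter]
    rw [e, ← sum_add_distrib]
    refine sum_congr rfl fun i _ => ?_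
    by_cases hi : i ∈ O
    · simp only [hi, if_true]
      cases ψ y i <;> simp [bv]
    · simp only [hi, if_false]
      ring
  · rw [Finset.disjoint_left]
    intro i hi hi'
    rw [hI, mem_filter] at hi
    rw [mem_filter] at hi'
    have h1 := hi'.2
    rcases hi.2 with h | h
    · have := h true false false
      rw [h1] at this
      simp at this
    · have := h true true false
      rw [h1] at this
      simp at this
  · obtain ⟨y, hy⟩ := hcl y1 y2 y3
    refine ⟨y, fun i => ?_⟩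
    by_cases hO' : i ∈ O
    · have hO2 := (mem_filter.mp hO').2
      have hI' : i ∈ I := mem_filter.mpr ⟨mem_univ _, Or.inr hO2⟩
      simp only [hO', if_true, hI']
      rw [hy, hO2]
      cases ψ y1 i <;> cases ψ y2 i <;> cases ψ y3 i <;> rfl
    · by_cases hI' : i ∈ I
      · have hI2 := (mem_filter.mp hI').2
        have hand : ∀ a b c, t i a b c = (a && b && c) := by
          rcases hI2 with h | h
          · exact h
          · exact absurd (mem_filter.mpr ⟨mem_univ _, h⟩) hO'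
        simp only [hO', if_false, hI', if_true]
        rw [hy, hand]
      · by_cases hM : i ∈ univ.filter fun i => Min3 (t i)
        · have hM2 := (mem_filter.mp hM).2
          simp only [hO', if_false, hI', hM, if_true]
          rw [hy, hM2]
        · have hmaj : Maj (t i) := by
            have hI2 : i ∉ I := hI'
            have hM2 : i ∉ univ.filter fun i => Min3 (t i) := hM
            rw [hI, mem_filter] at hI2
            rw [mem_filter] at hM2
            rcases ht i with h | h | h | h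
            · exact absurd ⟨mem_univ _, Or.inl h⟩ hI2
            · exact absurd ⟨mem_univ _, Or.inr h⟩ hI2
            · exact h
            · exact absurd ⟨mem_univ _, h⟩ hM2
          simp only [hO', if_false, hI', hM]
          rw [hy, hmaj]
          rfl

theorem range_closed {k : ℕ} (ψ : Y → ι → Bool) (φ : ι → (Fin k → Bool) → Bool)
    (hcl : ∀ v : Fin k → Y, ∃ y, ∀ i, ψ y i = φ i (fun j => ψ (v j) i)) :
    Closed (Set.range ψ) φ := by
  intro v hv
  choose w hw using hv
  obtain ⟨y, hy⟩ := hcl w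
  refine ⟨y, ?_⟩
  funext i
  rw [hy]
  congr 1
  funext j
  rw [← hw j]

theorem closed_range {t : ι → Bool → Bool → Bool → Bool} (ψ : Y → ι → Bool)
    (h : Cl3 (Set.range ψ) t) (y1 y2 y3 : Y) :
    ∃ y, ∀ i, ψ y i = t i (ψ y1 i) (ψ y2 i) (ψ y3 i) := by
  obtain ⟨y, hy⟩ := h _ ⟨y1, rfl⟩ _ ⟨y2, rfl⟩ _ ⟨y3, rfl⟩
  exact ⟨y, fun i => congrFun hy i⟩

theorem final1 (F : X → Y → Bool) (ψ : Y → ι → Bool) (c : X → ℝ) (A : X → ι → ℝ)
    (hrep : ∀ x y, bv (F x y) = c x + ∑ i, A x i * bv (ψ y i)) {k : ℕ}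
    (φ : ι → (Fin k → Bool) → Bool)
    (hcl : ∀ v : Fin k → Y, ∃ y, ∀ i, ψ y i = φ i (fun j => ψ (v j) i))
    (h1 : ∀ i, φ i (fun _ => true) = true) (h0 : ∀ i, φ i (fun _ => false) = false)
    (hna : ∀ i, ¬ Affine (φ i)) :
    ∃ d, Proto F d ∧ (d : ℝ) ≤ 10000000 * (Real.logb 2 (Fintype.card ι : ℝ) + 1) ^ 7 := by
  classical
  obtain ⟨t, ht1, ht2⟩ := post (range_closed ψ φ hcl) h1 h0 (fun i h => hna i (proj_affine h))
  obtain ⟨ψ', c', A', I, e1, _, e3⟩ := flip F ψ c A hrep t (closed_range ψ ht1) (fun i => by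
    rcases ht2 i with h | h | h | h
    · exact Or.inl h
    · exact Or.inr (Or.inl h)
    · exact Or.inr (Or.inr (Or.inl h))
    · exact Or.inr (Or.inr (Or.inr h.2)))
  refine mixed F ψ' c' A' e1 I (fun y1 y2 y3 => ?_)
  obtain ⟨y, hy⟩ := e3 y1 y2 y3
  refine ⟨y, fun i => ?_⟩
  rw [hy]
  have hne : i ∉ univ.filter fun i => Min3 (t i) := by
    intro hi
    have h := (mem_filter.mp hi).2
    rcases ht2 i with h' | h' | h' | h'
    · have := h' true false false
      rw [h] at this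
      simp at this
    · have := h' true true false
      rw [h] at this
      simp at this
    · have := h' true true false
      rw [h] at this
      simp at this
    · exact hna i h'.1
  rw [if_neg hne]

theorem final2 (F : X → Y → Bool) (ψ : Y → ι → Bool) (c : X → ℝ) (A : X → ι → ℝ)
    (hrep : ∀ x y, bv (F x y) = c x + ∑ i, A x i * bv (ψ y i)) {k : ℕ}
    (φ : ι → (Fin k → Bool) → Bool)
    (hcl : ∀ v : Fin k → Y, ∃ y, ∀ i, ψ y i = φ i (fun j => ψ (v j) i))
    (h1 : ∀ i, φ i (fun _ => true) = true) (h0 : ∀ i, φ i (fun _ => false) = false)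
    (hnp : ∀ i, ¬ IsProj (φ i)) (d : ℕ)
    (haff : ∀ (G' : X → Y → Bool) (ψ' : Y → ι → Bool) (c' : X → ℝ) (A' : X → ι → ℝ),
      (∀ x y, bv (G' x y) = c' x + ∑ i, A' x i * bv (ψ' y i)) →
      (∀ y1 y2 y3, ∃ y, ∀ i, ψ' y i = xor (ψ' y1 i) (xor (ψ' y2 i) (ψ' y3 i))) → Proto G' d) :
    ∃ d', Proto F d' ∧
      (d' : ℝ) ≤ 10000000 * (Real.logb 2 (Fintype.card ι : ℝ) + 1) ^ 7 + d + 1 := by
  classical
  obtain ⟨t, ht1, ht2⟩ := post (range_closed ψ φ hcl) h1 h0 hnp
  obtain ⟨ψ', c', A', I, e1, e2, e3⟩ := flip F ψ c A hrep t (closed_range ψ ht1) (fun i => by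
    rcases ht2 i with h | h | h | h
    · exact Or.inl h
    · exact Or.inr (Or.inl h)
    · exact Or.inr (Or.inr (Or.inl h))
    · exact Or.inr (Or.inr (Or.inr h.2)))
  exact mixed_aff F ψ' c' A' e1 I _ e2 e3 d (fun G' ψ'' c'' h => haff G' ψ'' c'' A' h)

/-- for one operation in all coordinates: the affine case -/
theorem final3 (ψ : Y → ι → Bool) {k : ℕ} (f : (Fin k → Bool) → Bool)
    (hcl : ∀ v : Fin k → Y, ∃ y, ∀ i, ψ y i = f (fun j => ψ (v j) i))
    (h1 : f (fun _ => true) = true) (h0 : f (fun _ => false) = false) (hnp : ¬ IsProj f)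
    (ha : Affine f) (y1 y2 y3 : Y) :
    ∃ y, ∀ i, ψ y i = xor (ψ y1 i) (xor (ψ y2 i) (ψ y3 i)) := by
  obtain ⟨S, T, hST⟩ := exists_xor ha h1 h0 hnp
  obtain ⟨y, hy⟩ := hcl (fun j => if S j then y1 else if T j then y2 else y3)
  refine ⟨y, fun i => ?_⟩
  rw [hy, ← hST]
  congr 1
  funext j
  split_ifs <;> rfl

end

end Pool.Agent.K4H93.LRP
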