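import Pool.Agent.R533.VC.NW
import Pool.Agent.K4H92.ANDF.Step
import Pool.Agent.H630R2.LR.Bounds

/-!
Boolean linear functionals on a set of 0-1-vectors which is closed under coordinatewise majority.
-/

set_option autoImplicit false
set_option linter.unusedSectionVars false

namespace Pool.Agent.K4H93.LRP

open Finset Pool.Agent.H630R2.LR

/-- majority -/
def maj (a b c : Bool) : Bool := (a && b) || (b && c) || (a && c)

/-- the real value of a bit -/
def bv (b : Bool) : ℝ := if b then 1 else 0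

theorem bv_inj {a b : Bool} (h : bv a = bv b) : a = b := by
  cases a <;> cases b <;> simp [bv] at h ⊢

section core

variable {X Y ι : Type*} [Fintype ι] [DecidableEq ι] {G : X → Y → Bool} {ψ : Y → ι → Bool}
  {c : X → ℝ} {A : X → ι → ℝ}

theorem edge (hmaj : ∀ y1 y2 y3, ∃ y, ∀ i, ψ y i = maj (ψ y1 i) (ψ y2 i) (ψ y3 i))
    (hred : ∀ i j, i ≠ j → ∀ ε, ∃ y, ψ y j ≠ xor ε (ψ y i))
    (P : Y → Prop)
    (hP : ∀ y1 y2 z m, P y1 → P y2 → (∀ i, ψ m i = maj (ψ y1 i) (ψ y2 i) (ψ z i)) → P m)
    (i : ι) : ∀ (n : ℕ) (y0 y1 : Y), P y0 → P y1 → ψ y0 i = false → ψ y1 i = true →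
      (univ.filter fun j => ψ y0 j ≠ ψ y1 j).card ≤ n →
      ∃ w0 w1, P w0 ∧ P w1 ∧ ψ w0 i = false ∧ ψ w1 i = true ∧ ∀ j, j ≠ i → ψ w0 j = ψ w1 j := by
  intro n
  induction n with
  | zero =>
    intro y0 y1 _ _ h0 h1 hc
    rw [Nat.le_zero, card_eq_zero, filter_eq_empty_iff] at hc
    have := hc (mem_univ i)
    rw [h0, h1] at this
    simp at this
  | succ n ih =>
    intro y0 y1 p0 p1 h0 h1 hc
    by_cases hd : ∀ j, j ≠ i → ψ y0 j = ψ y1 j
    · exact ⟨y0, y1, p0, p1, h0, h1, hd⟩
    · push Not at hd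
      obtain ⟨j, hji, hj⟩ := hd
      obtain ⟨z, hz⟩ := hred i j (Ne.symm hji) (ψ y0 j)
      obtain ⟨m, hm⟩ := hmaj y0 y1 z
      have pm := hP y0 y1 z m p0 p1 hm
      have hmi : ψ m i = ψ z i := by
        rw [hm, h0, h1]
        cases ψ z i <;> rfl
      have hmj : ψ m j = ψ z j := by
        rw [hm]
        revert hj
        cases ψ y0 j <;> cases ψ y1 j <;> cases ψ z j <;> simp [maj]
      have hj1 : ψ y1 j = !ψ y0 j := by
        revert hj
        cases ψ y0 j <;> cases ψ y1 j <;> simp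
      cases hzi : ψ z i with
      | true =>
        -- the pair (y0, m)
        refine ih y0 m p0 pm h0 (by rw [hmi, hzi]) ?_
        have h2 : (univ.filter fun l => ψ y0 l ≠ ψ m l) ⊂ univ.filter fun l => ψ y0 l ≠ ψ y1 l := by
          rw [ssubset_iff_of_subset]
          · refine ⟨j, by simp [hj], ?_⟩
            rw [mem_filter, not_and, not_not]
            intro _
            rw [hmj]
            rw [hzi] at hz
            revert hz
            cases ψ z j <;> cases ψ y0 j <;> simp
          · intro l hl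
            rw [mem_filter] at hl ⊢
            refine ⟨mem_univ _, fun h => hl.2 ?_⟩
            rw [hm, ← h]
            cases ψ y0 l <;> cases ψ z l <;> rfl
        have := card_lt_card h2
        omega
      | false =>
        refine ih m y1 pm p1 (by rw [hmi, hzi]) h1 ?_
        have h2 : (univ.filter fun l => ψ m l ≠ ψ y1 l) ⊂ univ.filter fun l => ψ y0 l ≠ ψ y1 l := by
          rw [ssubset_iff_of_subset]
          · refine ⟨j, by simp [hj], ?_⟩
            rw [mem_filter, not_and, not_not]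
            intro _
            rw [hmj, hj1]
            rw [hzi] at hz
            revert hz
            cases ψ z j <;> cases ψ y0 j <;> simp
          · intro l hl
            rw [mem_filter] at hl ⊢
            refine ⟨mem_univ _, fun h => hl.2 ?_⟩
            rw [hm, h]
            cases ψ y1 l <;> cases ψ z l <;> rfl
        have := card_lt_card h2
        omega

theorem jump (hrep : ∀ x y, bv (G x y) = c x + ∑ i, A x i * bv (ψ y i)) (x : X) (i : ι)
    (w0 w1 : Y) (h0 : ψ w0 i = false) (h1 : ψ w1 i = true) (hd : ∀ j, j ≠ i → ψ w0 j = ψ w1 j) :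
    bv (G x w1) - bv (G x w0) = A x i := by
  rw [hrep, hrep]
  have h2 : ∑ j, A x j * bv (ψ w1 j) - ∑ j, A x j * bv (ψ w0 j) = A x i := by
    rw [← sum_sub_distrib, sum_eq_single i]
    · rw [h0, h1]
      simp [bv]
    · intro j _ hj
      rw [hd j hj, sub_self]
    · intro h
      exact absurd (mem_univ _) h
  linarith

/-- the relevant coordinates of a row are pairwise non-crossing -/
theorem noncross (hrep : ∀ x y, bv (G x y) = c x + ∑ i, A x i * bv (ψ y i))
    (hmaj : ∀ y1 y2 y3, ∃ y, ∀ i, ψ y i = maj (ψ y1 i) (ψ y2 i) (ψ y3 i))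
    (hred : ∀ i j, i ≠ j → ∀ ε, ∃ y, ψ y j ≠ xor ε (ψ y i))
    (x : X) (i j : ι) (hi : A x i ≠ 0) (hj : A x j ≠ 0) :
    ∃ ε δ, ∀ y, ¬ (ψ y i = ε ∧ ψ y j = δ) := by
  by_contra hcon
  push Not at hcon
  -- edges in direction i with given coordinate j
  have hE : ∀ δ, ∃ w0 w1, ψ w0 j = δ ∧ ψ w1 j = δ ∧ ψ w0 i = false ∧ ψ w1 i = true ∧
      ∀ l, l ≠ i → ψ w0 l = ψ w1 l := by
    intro δ
    obtain ⟨y0, h0, h0'⟩ := hcon false δ
    obtain ⟨y1, h1, h1'⟩ := hcon true δ
    obtain ⟨w0, w1, a1, a2, a3, a4, a5⟩ := edge hmaj hred (fun y => ψ y j = δ) (by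
      intro y1 y2 z m e1 e2 hm
      rw [hm, e1, e2]
      cases δ <;> cases ψ z j <;> rfl) i _ y0 y1 h0' h1' h0 h1 le_rfl
    exact ⟨w0, w1, a1, a2, a3, a4, a5⟩
  set D : Y → Prop := fun y => ψ y i = false ∧ ∃ y', ψ y' i = true ∧ ∀ l, l ≠ i → ψ y l = ψ y' l
    with hD
  have hval : ∀ y y', D y → D y' → G x y = G x y' := by
    rintro y y' ⟨e1, z, e2, e3⟩ ⟨e1', z', e2', e3'⟩
    have j1 := jump hrep x i y z e1 e2 e3
    have j2 := jump hrep x i y' z' e1' e2' e3'
    by_contra hne
    apply hi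
    revert j1 j2 hne
    unfold bv
    cases G x y <;> cases G x y' <;> cases G x z <;> cases G x z' <;>
      simp only [Bool.false_eq_true, if_false, if_true, not_true_eq_false, reduceCtorEq, not_false_eq_true,
        forall_true_left, IsEmpty.forall_iff, implies_true] <;> intro j1 j2 <;> linarith
  obtain ⟨w0, v0, a1, a2, a3, a4, a5⟩ := hE false
  obtain ⟨w1, v1, b1, b2, b3, b4, b5⟩ := hE true
  have hw0 : D w0 := ⟨a3, v0, a4, a5⟩
  have hw1 : D w1 := ⟨b3, v1, b4, b5⟩
  obtain ⟨u0, u1, c1, c2, c3, c4, c5⟩ := edge hmaj hred D (by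
    rintro y1 y2 z m ⟨e1, z1, e2, e3⟩ ⟨f1, z2, f2, f3⟩ hm
    refine ⟨by rw [hm, e1, f1]; cases ψ z i <;> rfl, ?_⟩
    obtain ⟨m', hm'⟩ := hmaj z1 z2 z
    refine ⟨m', by rw [hm', e2, f2]; cases ψ z i <;> rfl, fun l hl => ?_⟩
    rw [hm, hm', e3 l hl, f3 l hl]) j _ w0 w1 hw0 hw1 a1 b1 le_rfl
  have h1 := jump hrep x j u0 u1 c3 c4 c5
  rw [hval u0 u1 c1 c2, sub_self] at h1
  exact hj h1.symm

/-- the coordinates in `H` one side of which is contained in the side `ε` of `i` -/
noncomputable def In (ψ : Y → ι → Bool) (H : Finset ι) (i : ι) (ε : Bool) : Finset ι := by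
  classical
  exact H.filter fun j => j ≠ i ∧ ∃ δ, ∀ y, ψ y j = δ → ψ y i = ε

open Classical in
theorem mem_In {H : Finset ι} {i j : ι} {ε : Bool} :
    j ∈ In ψ H i ε ↔ j ∈ H ∧ j ≠ i ∧ ∃ δ, ∀ y, ψ y j = δ → ψ y i = ε := by
  unfold In
  rw [mem_filter]

theorem in_disj (hnc : ∀ i b, ∃ y, ψ y i = b)
    (hred : ∀ i j, i ≠ j → ∀ ε, ∃ y, ψ y j ≠ xor ε (ψ y i)) (H : Finset ι) (i : ι) :
    (In ψ H i true).card + (In ψ H i false).card ≤ H.card := by
  classical
  rw [← card_union_of_disjoint]
  · refine card_le_card (union_subset ?_ ?_) <;>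
    · unfold In
      exact filter_subset _ _
  · rw [Finset.disjoint_left]
    intro j h1 h2
    rw [mem_In] at h1 h2
    obtain ⟨_, hji, δ, hδ⟩ := h1
    obtain ⟨_, _, δ', hδ'⟩ := h2
    have hne : δ' ≠ δ := by
      rintro rfl
      obtain ⟨y, hy⟩ := hnc j δ'
      have e1 := hδ y hy
      have e2 := hδ' y hy
      rw [e1] at e2
      simp at e2
    obtain ⟨y, hy⟩ := hred i j (Ne.symm hji) (!δ)
    apply hy
    by_cases h : ψ y j = δ
    · rw [h, hδ y h]
      simp
    · have h3 : ψ y j = δ' := by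
        revert hne h
        cases ψ y j <;> cases δ <;> cases δ' <;> simp
      rw [hδ' y h3]
      revert hne h
      cases ψ y j <;> cases δ <;> cases δ' <;> simp

theorem rect [Fintype X] [Fintype Y] (hrep : ∀ x y, bv (G x y) = c x + ∑ i, A x i * bv (ψ y i))
    (hmaj : ∀ y1 y2 y3, ∃ y, ∀ i, ψ y i = maj (ψ y1 i) (ψ y2 i) (ψ y3 i))
    (hnc : ∀ i b, ∃ y, ψ y i = b)
    (hred : ∀ i j, i ≠ j → ∀ ε, ∃ y, ψ y j ≠ xor ε (ψ y i)) (s : ℕ) (hs : 1 ≤ s) :
    ∀ (n : ℕ) (H : Finset ι) (X1 : Finset X) (Y1 : Finset Y), H.card < 2 ^ n → H.card ≤ s →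
      (∀ x ∈ X1, ∀ i, A x i ≠ 0 → i ∉ H → ∀ y ∈ Y1, ∀ y' ∈ Y1, ψ y i = ψ y' i) →
      ∃ X2 ⊆ X1, ∃ Y2 ⊆ Y1, ∃ v : Bool, (∀ x ∈ X2, ∀ y ∈ Y2, G x y = v) ∧
        X1.card ≤ 4 * (2 * s) ^ n * X2.card ∧ Y1.card ≤ 2 * (2 * s) ^ n * Y2.card := by
  classical
  intro n
  induction n with
  | zero =>
    intro H X1 Y1 hH _ hI
    have hH0 : H = ∅ := by
      rw [← card_eq_zero]
      simpa using hH
    subst hH0
    rcases Y1.eq_empty_or_nonempty with h0 | ⟨y0, hy0⟩
    · subst h0
      exact ⟨X1, subset_rfl, ∅, subset_rfl, true, by simp, by rw [pow_zero]; omega, by simp⟩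
    have hconst : ∀ x ∈ X1, ∀ y ∈ Y1, G x y = G x y0 := by
      intro x hx y hy
      apply bv_inj
      rw [hrep, hrep]
      congr 1
      refine sum_congr rfl fun i _ => ?_
      by_cases hA : A x i = 0
      · rw [hA, zero_mul, zero_mul]
      · rw [hI x hx i hA (notMem_empty i) y hy y0 hy0]
    have hc : (X1.filter fun x => G x y0 = true).card + (X1.filter fun x => ¬ G x y0 = true).card =
        X1.card := card_filter_add_card_filter_not (s := X1) (fun x => G x y0 = true)
    by_cases h : X1.card ≤ 2 * (X1.filter fun x => G x y0 = true).card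
    · refine ⟨_, filter_subset (fun x => G x y0 = true) _, Y1, subset_rfl, true,
        fun x hx y hy => ?_, ?_, ?_⟩
      · rw [mem_filter] at hx
        rw [hconst x hx.1 y hy, hx.2]
      · rw [pow_zero]
        omega
      · rw [pow_zero]
        omega
    · refine ⟨_, filter_subset (fun x => ¬ G x y0 = true) _, Y1, subset_rfl, false,
        fun x hx y hy => ?_, ?_, ?_⟩
      · rw [mem_filter] at hx
        rw [hconst x hx.1 y hy]
        simpa using hx.2
      · rw [pow_zero]
        omega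
      · rw [pow_zero]
        omega
  | succ n ih =>
    intro H X1 Y1 hH hHs hI
    set big : ι → Bool := fun i => decide ((In ψ H i false).card ≤ (In ψ H i true).card) with hbig
    have hsmall : ∀ i, 2 * (In ψ H i (!big i)).card ≤ H.card := by
      intro i
      have h1 := in_disj hnc hred H i
      by_cases h : (In ψ H i false).card ≤ (In ψ H i true).card
      · have : big i = true := by
          rw [hbig]
          simpa using h
        rw [this]
        simp only [Bool.not_true]
        omega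
      · have : big i = false := by
          rw [hbig]
          simpa using h
        rw [this]
        simp only [Bool.not_false]
        omega
    obtain ⟨X1', hX1', hX1c, hX1u⟩ := Pool.Agent.K4H92.ANDF.clean X1 H (fun x i => A x i ≠ 0)
    obtain ⟨Y1', hY1', hY1c, hY1u⟩ := Pool.Agent.K4H92.ANDF.clean Y1 H (fun y i => ψ y i = !big i)
    by_cases hcase : ∃ i ∈ H, (∃ x ∈ X1', A x i ≠ 0) ∧ (∃ y ∈ Y1', ψ y i = !big i)
    · obtain ⟨i, hiH, ⟨x0, hx0, hx0'⟩, ⟨y0, hy0, hy0'⟩⟩ := hcase
      have hXi : X1.card ≤ 2 * H.card * (X1'.filter fun x => A x i ≠ 0).card := by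
        rcases hX1u i hiH with h | h
        · exact absurd hx0' (h x0 hx0)
        · refine h.trans (le_of_eq ?_)
          congr 2
          ext x
          simp only [mem_filter]
      have hYi : Y1.card ≤ 2 * H.card * (Y1'.filter fun y => ψ y i = !big i).card := by
        rcases hY1u i hiH with h | h
        · exact absurd hy0' (h y0 hy0)
        · refine h.trans (le_of_eq ?_)
          congr 2
          ext x
          simp only [mem_filter]
      obtain ⟨X2, hX2, Y2, hY2, v, hv, e1, e2⟩ := ih (In ψ H i (!big i))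
        (X1'.filter fun x => A x i ≠ 0) (Y1'.filter fun y => ψ y i = !big i) (by
          have := hsmall i
          rw [pow_succ] at hH
          omega) (by
          have := hsmall i
          omega) (by
          intro x hx j hAj hjH y hy y' hy'
          rw [mem_filter] at hx hy hy'
          by_cases hjH' : j ∈ H
          · by_cases hji : j = i
            · subst hji
              rw [hy.2, hy'.2]
            · obtain ⟨ε, δ, hεδ⟩ := noncross hrep hmaj hred x i j hx.2 hAj
              by_cases hε : ε = !big i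
              · have h3 : ∀ z, ψ z i = !big i → ψ z j = !δ := by
                  intro z hz
                  have := hεδ z
                  rw [hz, hε] at this
                  simp only [true_and] at this
                  revert this
                  cases ψ z j <;> cases δ <;> simp
                rw [h3 y hy.2, h3 y' hy'.2]
              · exfalso
                apply hjH
                rw [mem_In]
                refine ⟨hjH', hji, δ, fun z hz => ?_⟩
                have := hεδ z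
                rw [hz] at this
                simp only [and_true] at this
                revert this hε
                cases ψ z i <;> cases ε <;> cases big i <;> simp
          · exact hI x (hX1' hx.1) j hAj hjH' y (hY1' hy.1) y' (hY1' hy'.1))
      refine ⟨X2, hX2.trans ((filter_subset _ _).trans hX1'), Y2,
        hY2.trans ((filter_subset _ _).trans hY1'), v, hv, ?_, ?_⟩
      · calc X1.card ≤ 2 * H.card * (X1'.filter fun x => A x i ≠ 0).card := hXi
          _ ≤ 2 * s * (4 * (2 * s) ^ n * X2.card) :=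
              Nat.mul_le_mul (Nat.mul_le_mul_left _ hHs) e1
          _ = 4 * (2 * s) ^ (n + 1) * X2.card := by ring
      · calc Y1.card ≤ 2 * H.card * (Y1'.filter fun y => ψ y i = !big i).card := hYi
          _ ≤ 2 * s * (2 * (2 * s) ^ n * Y2.card) :=
              Nat.mul_le_mul (Nat.mul_le_mul_left _ hHs) e2
          _ = 2 * (2 * s) ^ (n + 1) * Y2.card := by ring
    · push Not at hcase
      have hp : 1 ≤ (2 * s) ^ (n + 1) := Nat.one_le_pow _ _ (by omega)
      rcases Y1'.eq_empty_or_nonempty with h0 | ⟨y0, hy0⟩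
      · refine ⟨X1, subset_rfl, ∅, empty_subset _, true, by simp, ?_, ?_⟩
        · nlinarith
        · rw [h0] at hY1c
          simp only [card_empty, mul_zero, nonpos_iff_eq_zero] at hY1c
          rw [hY1c]
          exact Nat.zero_le _
      have hconst : ∀ x ∈ X1', ∀ y ∈ Y1', G x y = G x y0 := by
        intro x hx y hy
        apply bv_inj
        rw [hrep, hrep]
        congr 1
        refine sum_congr rfl fun i _ => ?_
        by_cases hA : A x i = 0
        · rw [hA, zero_mul, zero_mul]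
        · by_cases hiH : i ∈ H
          · have h1 := hcase i hiH ⟨x, hx, hA⟩ y hy
            have h2 := hcase i hiH ⟨x, hx, hA⟩ y0 hy0
            have h3 : ψ y i = ψ y0 i := by
              revert h1 h2
              cases ψ y i <;> cases ψ y0 i <;> cases big i <;> simp
            rw [h3]
          · rw [hI x (hX1' hx) i hA hiH y (hY1' hy) y0 (hY1' hy0)]
      have hc : (X1'.filter fun x => G x y0 = true).card +
          (X1'.filter fun x => ¬ G x y0 = true).card = X1'.card :=
        card_filter_add_card_filter_not (s := X1') (fun x => G x y0 = true)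
      by_cases h : X1'.card ≤ 2 * (X1'.filter fun x => G x y0 = true).card
      · refine ⟨_, (filter_subset (fun x => G x y0 = true) _).trans hX1', Y1', hY1', true,
          fun x hx y hy => ?_, ?_, ?_⟩
        · rw [mem_filter] at hx
          rw [hconst x hx.1 y hy, hx.2]
        · have : X1.card ≤ 4 * (X1'.filter fun x => G x y0 = true).card := by omega
          nlinarith
        · nlinarith
      · refine ⟨_, (filter_subset (fun x => ¬ G x y0 = true) _).trans hX1', Y1', hY1', false,
          fun x hx y hy => ?_, ?_, ?_⟩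
        · rw [mem_filter] at hx
          rw [hconst x hx.1 y hy]
          simpa using hx.2
        · have : X1.card ≤ 4 * (X1'.filter fun x => ¬ G x y0 = true).card := by omega
          nlinarith
        · nlinarith

theorem rich_core [Fintype X] [Fintype Y] (s D : ℕ) (hsc : Fintype.card ι < s) (hD : s < 2 ^ D)
    (hrep : ∀ x y, bv (G x y) = c x + ∑ i, A x i * bv (ψ y i))
    (hmaj : ∀ y1 y2 y3, ∃ y, ∀ i, ψ y i = maj (ψ y1 i) (ψ y2 i) (ψ y3 i))
    (hnc : ∀ i b, ∃ y, ψ y i = b)
    (hred : ∀ i j, i ≠ j → ∀ ε, ∃ y, ψ y j ≠ xor ε (ψ y i)) :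
    Pool.Agent.R533.VC.Rich G (2 ^ (3 + 2 * D * (D + 1))) := by
  intro X1 Y1 _ _
  have hcu : (univ : Finset ι).card = Fintype.card ι := card_univ
  obtain ⟨X2, hX2, Y2, hY2, v, hv, e1, e2⟩ := rect hrep hmaj hnc hred s (by omega) D univ X1 Y1
    (by omega) (by omega) (fun x _ i _ hi => absurd (mem_univ i) hi)
  refine ⟨X2, hX2, Y2, hY2, v, hv, ?_⟩
  have h2 : 2 * s ≤ 2 ^ (D + 1) := by
    rw [pow_succ]
    omega
  calc X1.card * Y1.card ≤ (4 * (2 * s) ^ D * X2.card) * (2 * (2 * s) ^ D * Y2.card) :=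
        Nat.mul_le_mul e1 e2
    _ = 8 * ((2 * s) ^ D * (2 * s) ^ D) * (X2.card * Y2.card) := by ring
    _ ≤ 8 * ((2 ^ (D + 1)) ^ D * (2 ^ (D + 1)) ^ D) * (X2.card * Y2.card) := by
        refine Nat.mul_le_mul_right _ (Nat.mul_le_mul_left _ ?_)
        exact Nat.mul_le_mul (Nat.pow_le_pow_left h2 _) (Nat.pow_le_pow_left h2 _)
    _ = 2 ^ (3 + 2 * D * (D + 1)) * (X2.card * Y2.card) := by
        congr 1
        rw [← pow_mul, ← pow_add, pow_add 2 3]
        congr 2
        ring

end core

section reduction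

variable {X Y ι : Type*} [Fintype ι] [DecidableEq ι]

/-- the rows of `G` are affine functionals of the coordinates in `S` -/
def RepOn (G : X → Y → Bool) (ψ : Y → ι → Bool) (S : Finset ι) : Prop :=
  ∃ (c : X → ℝ) (A : X → ι → ℝ), ∀ x y, bv (G x y) = c x + ∑ i ∈ S, A x i * bv (ψ y i)

theorem rep_const {G : X → Y → Bool} {ψ : Y → ι → Bool} {S : Finset ι} (h : RepOn G ψ S) {i : ι}
    (hi : i ∈ S) {b : Bool} (hb : ∀ y, ψ y i = b) : RepOn G ψ (S.erase i) := by
  obtain ⟨c, A, hA⟩ := h
  refine ⟨fun x => c x + A x i * bv b, A, fun x y => ?_⟩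
  rw [hA, ← add_sum_erase S _ hi, hb y]
  ring

theorem rep_dup {G : X → Y → Bool} {ψ : Y → ι → Bool} {S : Finset ι} (h : RepOn G ψ S) {i j : ι}
    (hi : i ∈ S) (hj : j ∈ S) (hij : i ≠ j) {ε : Bool} (hb : ∀ y, ψ y j = xor ε (ψ y i)) :
    RepOn G ψ (S.erase j) := by
  obtain ⟨c, A, hA⟩ := h
  have hiS : i ∈ S.erase j := mem_erase.mpr ⟨hij, hi⟩
  refine ⟨fun x => c x + (if ε then A x j else 0),
    fun x l => if l = i then A x i + (if ε then -A x j else A x j) else A x l, fun x y => ?_⟩
  rw [hA, ← add_sum_erase S _ hj, ← add_sum_erase (S.erase j) _ hiS,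
    ← add_sum_erase (S.erase j) (fun l => (if l = i then A x i + (if ε then -A x j else A x j)
      else A x l) * bv (ψ y l)) hiS, hb y, if_pos rfl]
  have h1 : ∑ l ∈ (S.erase j).erase i, A x l * bv (ψ y l) = ∑ l ∈ (S.erase j).erase i,
      (if l = i then A x i + (if ε then -A x j else A x j) else A x l) * bv (ψ y l) := by
    refine sum_congr rfl fun l hl => ?_
    rw [if_neg (ne_of_mem_erase hl)]
  rw [← h1]
  cases ε <;> cases ψ y i <;> simp [bv] <;> ring

theorem exists_red {G : X → Y → Bool} {ψ : Y → ι → Bool} (h : RepOn G ψ univ) :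
    ∃ S, RepOn G ψ S ∧ (∀ i ∈ S, ∀ b, ∃ y, ψ y i = b) ∧
      ∀ i ∈ S, ∀ j ∈ S, i ≠ j → ∀ ε, ∃ y, ψ y j ≠ xor ε (ψ y i) := by
  classical
  obtain ⟨S, hS, hmin⟩ := exists_min_image (univ.filter fun S => RepOn G ψ S) card
    ⟨univ, mem_filter.mpr ⟨mem_univ _, h⟩⟩
  have hS' := (mem_filter.mp hS).2
  refine ⟨S, hS', ?_, ?_⟩
  · intro i hi b
    by_contra hcon
    push Not at hcon
    have h1 := rep_const hS' hi (b := !b) (fun y => by
      have := hcon y
      revert this
      cases ψ y i <;> cases b <;> simp)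
    have h2 := hmin _ (mem_filter.mpr ⟨mem_univ _, h1⟩)
    have h3 := card_erase_lt_of_mem hi
    omega
  · intro i hi j hj hij ε
    by_contra hcon
    push Not at hcon
    have h1 := rep_dup hS' hi hj hij hcon
    have h2 := hmin _ (mem_filter.mpr ⟨mem_univ _, h1⟩)
    have h3 := card_erase_lt_of_mem hj
    omega

theorem rank_le_rep [Fintype X] [Fintype Y] {G : X → Y → Bool} {ψ : Y → ι → Bool} {c : X → ℝ}
    {A : X → ι → ℝ} (hrep : ∀ x y, bv (G x y) = c x + ∑ i, A x i * bv (ψ y i)) :
    (comm G).rank ≤ Fintype.card ι + 1 := by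
  have h1 : comm G = (Matrix.of fun (x : X) (z : Option ι) => (z.elim (c x) (A x))) *
      (Matrix.of fun (z : Option ι) (y : Y) => (z.elim 1 fun i => bv (ψ y i))) := by
    ext x y
    rw [Matrix.mul_apply, Fintype.sum_option]
    have h2 : comm G x y = bv (G x y) := rfl
    rw [h2, hrep]
    simp
  rw [h1]
  refine (Matrix.rank_mul_le_left _ _).trans ?_
  refine (Matrix.rank_le_card_width _).trans ?_
  rw [Fintype.card_option]

/-- **Majority.** Boolean affine functionals on a set of 0-1-vectors which is closed under the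
majority operation. -/
theorem maj_proto [Fintype X] [Fintype Y] (G : X → Y → Bool) (ψ : Y → ι → Bool) (c : X → ℝ)
    (A : X → ι → ℝ) (hrep : ∀ x y, bv (G x y) = c x + ∑ i, A x i * bv (ψ y i))
    (hmaj : ∀ y1 y2 y3, ∃ y, ∀ i, ψ y i = maj (ψ y1 i) (ψ y2 i) (ψ y3 i)) (D : ℕ)
    (hD : Fintype.card ι + 1 < 2 ^ D) : Proto G (20 * D ^ 3) := by
  classical
  obtain ⟨S, ⟨c', A', hS⟩, h1, h2⟩ := exists_red (G := G) (ψ := ψ) ⟨c, A, hrep⟩
  have hrank := rank_le_rep hrep
  have hcard : Fintype.card {i // i ∈ S} < Fintype.card ι + 1 := by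
    have := Fintype.card_subtype_le (fun i => i ∈ S)
    omega
  have hrich := rich_core (G := G) (ψ := fun y (i : {i // i ∈ S}) => ψ y i.1)
    (c := c') (A := fun x (i : {i // i ∈ S}) => A' x i.1) (Fintype.card ι + 1) D
    hcard hD
    (fun x y => by
      rw [hS]
      congr 1
      exact (sum_coe_sort S fun i => A' x i * bv (ψ y i)).symm)
    (fun y1 y2 y3 => by
      obtain ⟨y, hy⟩ := hmaj y1 y2 y3
      exact ⟨y, fun i => hy i.1⟩)
    (fun i b => h1 i.1 i.2 b)
    (fun i j hij ε => h2 i.1 i.2 j.1 j.2 (fun h => hij (Subtype.ext h)) ε)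
  have hD1 : 1 ≤ D := by
    by_contra h
    have : D = 0 := by omega
    subst this
    simp at hD
  have hP := Pool.Agent.R533.VC.nw G _ Nat.one_le_two_pow hrich (D + 1 + (3 + 2 * D * (D + 1))) (by
    have h3 : 1 ≤ 2 ^ (3 + 2 * D * (D + 1)) := Nat.one_le_two_pow
    calc 2 * (comm G).rank * 2 ^ (3 + 2 * D * (D + 1)) + 2
        ≤ 2 * (Fintype.card ι + 1) * 2 ^ (3 + 2 * D * (D + 1)) +
          2 * 2 ^ (3 + 2 * D * (D + 1)) := by
          have := Nat.mul_le_mul_right (2 ^ (3 + 2 * D * (D + 1))) (Nat.mul_le_mul_left 2 hrank)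
          omega
      _ = 2 * (Fintype.card ι + 1 + 1) * 2 ^ (3 + 2 * D * (D + 1)) := by ring
      _ ≤ 2 * 2 ^ D * 2 ^ (3 + 2 * D * (D + 1)) := by
          refine Nat.mul_le_mul_right _ (Nat.mul_le_mul_left _ ?_)
          omega
      _ = 2 ^ (D + 1 + (3 + 2 * D * (D + 1))) := by
          rw [pow_add, pow_succ]
          ring)
  refine hP.mono ?_
  have hcl : Nat.clog 2 (comm G).rank ≤ D := by
    rw [Nat.clog_le_iff_le_pow (by norm_num)]
    omega
  calc 2 * (D + 1 + (3 + 2 * D * (D + 1))) * Nat.clog 2 (comm G).rank + 2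
      ≤ 2 * (D + 1 + (3 + 2 * D * (D + 1))) * D + 2 :=
        Nat.add_le_add_right (Nat.mul_le_mul_left _ hcl) _
    _ ≤ 20 * D ^ 3 := by
        obtain ⟨d, hd⟩ := Nat.exists_eq_add_of_le hD1
        rw [hd]
        ring_nf
        nlinarith [Nat.zero_le (d ^ 2), Nat.zero_le (d ^ 3), Nat.zero_le d]

end reduction

end Pool.Agent.K4H93.LRP
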