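import Mathlib

/-!
Coordinatewise operations on sets of 0-1-vectors: an idempotent operation none of whose coordinates is
affine over the field with two elements produces a ternary one which is in every coordinate the
conjunction, the disjunction or the majority.
-/

set_option autoImplicit false

namespace Pool.Agent.K4H93.LRP

open Finset

/-- `f` is affine over the field with two elements -/
def Affine {k : ℕ} (f : (Fin k → Bool) → Bool) : Prop :=
  ∃ (c : ZMod 2) (a : Fin k → ZMod 2), ∀ v : Fin k → Bool,
    (if f v then (1 : ZMod 2) else 0) = c + ∑ j, a j * (if v j then 1 else 0)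

/-- the set `B` is closed under the operation `φ` which acts by `φ i` in the coordinate `i` -/
def Closed {ι : Type*} (B : Set (ι → Bool)) {k : ℕ} (φ : ι → (Fin k → Bool) → Bool) : Prop :=
  ∀ v : Fin k → ι → Bool, (∀ j, v j ∈ B) → (fun i => φ i (fun j => v j i)) ∈ B

def Cl2 {ι : Type*} (B : Set (ι → Bool)) (p : ι → Bool → Bool → Bool) : Prop :=
  ∀ u ∈ B, ∀ v ∈ B, (fun i => p i (u i) (v i)) ∈ B

def Cl3 {ι : Type*} (B : Set (ι → Bool)) (t : ι → Bool → Bool → Bool → Bool) : Prop :=
  ∀ u ∈ B, ∀ v ∈ B, ∀ w ∈ B, (fun i => t i (u i) (v i) (w i)) ∈ B

def SL (f : Bool → Bool → Bool) : Prop :=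
  (∀ a b, f a b = (a && b)) ∨ (∀ a b, f a b = (a || b))

def Fst (f : Bool → Bool → Bool) : Prop := ∀ a b, f a b = a

def Snd (f : Bool → Bool → Bool) : Prop := ∀ a b, f a b = b

theorem bin_cases (q : Bool → Bool → Bool) (h1 : q true true = true) (h0 : q false false = false) :
    SL q ∨ Fst q ∨ Snd q := by
  cases h2 : q true false <;> cases h3 : q false true
  · left; left
    intro a b
    cases a <;> cases b <;> simp [*]
  · right; right
    intro a b
    cases a <;> cases b <;> simp [*]
  · right; left
    intro a b
    cases a <;> cases b <;> simp [*]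
  · left; right
    intro a b
    cases a <;> cases b <;> simp [*]

/-- the combination of two binary operations -/
def comb2 (p q : Bool → Bool → Bool) (x y : Bool) : Bool :=
  q (p (q (p x y) (p y x)) x) (p x (q (p x y) (p y x)))

theorem comb2_sl_left {p q : Bool → Bool → Bool} (hp : SL p) (h1 : q true true = true)
    (h0 : q false false = false) : SL (comb2 p q) := by
  unfold comb2
  rcases hp with hp | hp
  · left
    intro a b
    cases a <;> cases b <;> simp [hp, h1, h0]
  · right
    intro a b
    cases a <;> cases b <;> simp [hp, h1, h0]

theorem comb2_sl_right {p q : Bool → Bool → Bool} (hp : Fst p) (hq : SL q) : SL (comb2 p q) := by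
  unfold comb2
  unfold Fst at hp
  rcases hq with hq | hq
  · left
    intro a b
    cases a <;> cases b <;> simp [hp, hq]
  · right
    intro a b
    cases a <;> cases b <;> simp [hp, hq]

theorem comb2_fst {p q : Bool → Bool → Bool} (hp : Fst p) (hq : Fst q ∨ Snd q) :
    Fst (comb2 p q) := by
  intro a b
  unfold comb2
  rcases hq with hq | hq
  · rw [hq, hp, hq, hp]
  · rw [hq, hp]

theorem comb2_cl {ι : Type*} {B : Set (ι → Bool)} {p q : ι → Bool → Bool → Bool} (hp : Cl2 B p)
    (hq : Cl2 B q) : Cl2 B (fun i => comb2 (p i) (q i)) := by
  intro u hu v hv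
  have h1 := hq _ (hp u hu v hv) _ (hp v hv u hu)
  exact hq _ (hp _ h1 u hu) _ (hp u hu _ h1)

section three

def Maj (g : Bool → Bool → Bool → Bool) : Prop :=
  ∀ a b c, g a b c = ((a && b) || (b && c) || (a && c))

def Prj (g : Bool → Bool → Bool → Bool) : Prop :=
  (∀ a b c, g a b c = a) ∨ (∀ a b c, g a b c = b) ∨ (∀ a b c, g a b c = c)

def Min3 (g : Bool → Bool → Bool → Bool) : Prop := ∀ a b c, g a b c = xor a (xor b c)

def Lin3 (g : Bool → Bool → Bool → Bool) : Prop :=
  ∀ a b c a' b' c', g (xor a a') (xor b b') (xor c c') = xor (g a b c) (g a' b' c')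

theorem lin_cases {g : Bool → Bool → Bool → Bool} (h1 : g true true true = true) (hl : Lin3 g) :
    Min3 g ∨ Prj g := by
  have h0 : g false false false = false := by
    have := hl true true true true true true
    rw [h1] at this
    simpa using this
  have e1 := hl true false false false true false
  have e2 := hl true false false false false true
  have e3 := hl false true false false false true
  have e4 := hl true true false false false true
  simp only [Bool.xor_false, Bool.false_xor, h1] at e1 e2 e3 e4
  rw [e1] at e4
  unfold Min3 Prj
  cases f1 : g true false false <;> cases f2 : g false true false <;>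
    cases f3 : g false false true <;> rw [f1, f2, f3] at e4 <;> rw [f1, f2] at e1 <;>
    rw [f1, f3] at e2 <;> rw [f2, f3] at e3 <;> simp at e4 <;>
    simp [h0, h1, e1, e2, e3, f1, f2, f3]

def nrm (g : Bool → Bool → Bool → Bool) (x y z : Bool) : Bool :=
  let g1 : Bool → Bool → Bool → Bool := fun x y z => g x y (g x y z)
  let g2 : Bool → Bool → Bool → Bool := fun x y z => g1 x (g1 x y z) z
  g2 (g2 x y z) y z

theorem nrm_cl {ι : Type*} {B : Set (ι → Bool)} {g : ι → Bool → Bool → Bool → Bool}
    (hg : Cl3 B g) : Cl3 B (fun i => nrm (g i)) := by
  have h1 : Cl3 B (fun i x y z => g i x y (g i x y z)) := fun u hu v hv w hw =>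
    hg u hu v hv _ (hg u hu v hv w hw)
  have h2 : Cl3 B (fun i x y z => (fun i x y z => g i x y (g i x y z)) i x
      ((fun i x y z => g i x y (g i x y z)) i x y z) z) := fun u hu v hv w hw =>
    h1 u hu _ (h1 u hu v hv w hw) w hw
  exact fun u hu v hv w hw => h2 _ (h2 u hu v hv w hw) v hv w hw

theorem nrm_spec (g : Bool → Bool → Bool → Bool) (h1 : g true true true = true)
    (hsd : ∀ a b c, g (!a) (!b) (!c) = !g a b c) :
    (Maj (nrm g) ∨ Prj (nrm g)) ∧
      (xor (g true false false) (xor (g false true false) (g false false true)) = false →
        Maj (nrm g)) := by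
  have h0 : g false false false = false := by
    have := hsd true true true
    rw [h1] at this
    simpa using this
  have e1 := hsd true false false
  have e2 := hsd false true false
  have e3 := hsd false false true
  simp only [Bool.not_true, Bool.not_false] at e1 e2 e3
  unfold Maj Prj nrm
  cases f1 : g true false false <;> cases f2 : g false true false <;>
    cases f3 : g false false true <;> rw [f1] at e1 <;> rw [f2] at e2 <;> rw [f3] at e3 <;>
    simp only [Bool.not_true, Bool.not_false] at e1 e2 e3 <;>
    simp [h0, h1, e1, e2, e3, f1, f2, f3]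

theorem nrm_prj {g : Bool → Bool → Bool → Bool} (hg : Min3 g ∨ Prj g) : Prj (nrm g) := by
  unfold Prj nrm
  rcases hg with hg | hg | hg | hg
  · right; right
    obtain rfl : g = fun a b c => xor a (xor b c) := by
      funext a b c
      exact hg a b c
    intro a b c
    cases a <;> cases b <;> cases c <;> rfl
  · left
    simp [hg]
  · right; left
    simp [hg]
  · right; right
    simp [hg]

def cyc (g h : Bool → Bool → Bool → Bool) (x y z : Bool) : Bool :=
  h (g x y z) (g y z x) (g z x y)

theorem cyc_cl {ι : Type*} {B : Set (ι → Bool)} {g h : ι → Bool → Bool → Bool → Bool}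
    (hg : Cl3 B g) (hh : Cl3 B h) : Cl3 B (fun i => cyc (g i) (h i)) := fun u hu v hv w hw =>
  hh _ (hg u hu v hv w hw) _ (hg v hv w hw u hu) _ (hg w hw u hu v hv)

theorem cyc_maj_left {g h : Bool → Bool → Bool → Bool} (hg : Maj g) (h1 : h true true true = true)
    (h0 : h false false false = false) : Maj (cyc g h) := by
  intro a b c
  unfold cyc
  rw [hg, hg, hg]
  cases a <;> cases b <;> cases c <;> simp [h1, h0]

theorem cyc_spec {g h : Bool → Bool → Bool → Bool} (hg : Prj g) (hh : Maj h ∨ Prj h) :
    (Maj (cyc g h) ∨ Prj (cyc g h)) ∧ (Maj h → Maj (cyc g h)) := by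
  have key : Maj h → Maj (cyc g h) := by
    intro hm a b c
    unfold cyc
    rcases hg with hg | hg | hg <;> rw [hm, hg, hg, hg] <;>
      cases a <;> cases b <;> cases c <;> rfl
  refine ⟨?_, key⟩
  rcases hh with hh | hh
  · exact Or.inl (key hh)
  · right
    unfold Prj cyc
    rcases hg with hg | hg | hg <;> rcases hh with hh | hh | hh <;> simp [hg, hh]

theorem cyc_prj {g h : Bool → Bool → Bool → Bool} (hg : Prj g) (hh : Prj h) : Prj (cyc g h) := by
  unfold Prj cyc
  rcases hg with hg | hg | hg <;> rcases hh with hh | hh | hh <;> simp [hg, hh]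

theorem cyc_min_left {g h : Bool → Bool → Bool → Bool} (hg : Min3 g)
    (h1 : h true true true = true) (h0 : h false false false = false) : Min3 (cyc g h) := by
  intro a b c
  unfold cyc
  rw [hg, hg, hg]
  cases a <;> cases b <;> cases c <;> simp [h1, h0]

theorem cyc_min_right {g h : Bool → Bool → Bool → Bool} (hg : Prj g) (hh : Min3 h) :
    Min3 (cyc g h) := by
  intro a b c
  unfold cyc
  rcases hg with hg | hg | hg <;> rw [hh, hg, hg, hg] <;>
    cases a <;> cases b <;> cases c <;> rfl

end three

section main

variable {ι : Type*} {B : Set (ι → Bool)} {k : ℕ}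
  {φ : ι → (Fin k → Bool) → Bool}

/-- not self-dual -/
def NSD (f : (Fin k → Bool) → Bool) : Prop := ∃ v, f v = f (fun j => !v j)

theorem minor2 (hcl : Closed B φ) (S : Fin k → Bool) :
    Cl2 B (fun i a b => φ i (fun j => if S j then a else b)) := by
  intro u hu v hv
  have := hcl (fun j => if S j then u else v) (fun j => by
    split_ifs
    · exact hu
    · exact hv)
  convert this using 3
  funext j
  split_ifs <;> rfl

theorem minor3 (hcl : Closed B φ) (S T : Fin k → Bool) :
    Cl3 B (fun i a b c => φ i (fun j => if S j then a else if T j then b else c)) := by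
  intro u hu v hv w hw
  have := hcl (fun j => if S j then u else if T j then v else w) (fun j => by
    split_ifs
    · exact hu
    · exact hv
    · exact hw)
  convert this using 3
  funext j
  split_ifs <;> rfl

theorem exists_sl [DecidableEq ι] (hcl : Closed B φ) (h1 : ∀ i, φ i (fun _ => true) = true)
    (h0 : ∀ i, φ i (fun _ => false) = false) (W : Finset ι) : (∀ i ∈ W, NSD (φ i)) →
    ∃ p, Cl2 B p ∧ (∀ i ∈ W, SL (p i)) ∧ (∀ i, SL (p i) ∨ Fst (p i)) ∧
      ∀ i, ¬ NSD (φ i) → Fst (p i) := by
  induction W using Finset.induction_on with
  | empty =>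
    intro _
    exact ⟨fun _ a _ => a, fun u hu _ _ => hu, by simp, fun i => Or.inr fun _ _ => rfl,
      fun i _ a b => rfl⟩
  | insert i W hi ih =>
    intro hW
    obtain ⟨p, hp1, hp2, hp3, hp4⟩ := ih fun j hj => hW j (mem_insert_of_mem hj)
    obtain ⟨S, hS⟩ := hW i (mem_insert_self i W)
    set q : ι → Bool → Bool → Bool := fun i a b => φ i (fun j => if S j then a else b) with hq
    have hq1 : Cl2 B q := minor2 hcl S
    have hqt : ∀ i, q i true true = true := fun i => by
      have e := h1 i
      rw [hq]
      simp only [ite_self]
      exact e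
    have hqf : ∀ i, q i false false = false := fun i => by
      have e := h0 i
      rw [hq]
      simp only [ite_self]
      exact e
    have hqi : SL (q i) := by
      have e : q i true false = q i false true := by
        have e1 : q i true false = φ i S := by
          rw [hq]
          simp only
          congr 1
          funext j
          cases S j <;> rfl
        have e2 : q i false true = φ i (fun j => !S j) := by
          rw [hq]
          simp only
          congr 1
          funext j
          cases S j <;> rfl
        rw [e1, e2, hS]
      rcases bin_cases (q i) (hqt i) (hqf i) with h | h | h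
      · exact h
      · rw [h, h] at e
        simp at e
      · rw [h, h] at e
        simp at e
    refine ⟨fun i => comb2 (p i) (q i), comb2_cl hp1 hq1, ?_, ?_, ?_⟩
    · intro j hj
      rcases hp3 j with h | h
      · exact comb2_sl_left h (hqt j) (hqf j)
      · rcases mem_insert.mp hj with rfl | hj
        · exact comb2_sl_right h hqi
        · exact comb2_sl_left (hp2 j hj) (hqt j) (hqf j)
    · intro j
      rcases hp3 j with h | h
      · exact Or.inl (comb2_sl_left h (hqt j) (hqf j))
      · rcases bin_cases (q j) (hqt j) (hqf j) with h' | h'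
        · exact Or.inl (comb2_sl_right h h')
        · exact Or.inr (comb2_fst h h')
    · intro j hj
      refine comb2_fst (hp4 j hj) ?_
      rcases bin_cases (q j) (hqt j) (hqf j) with h' | h'
      · exfalso
        apply hj
        refine ⟨S, ?_⟩
        have e1 : q j true false = φ j S := by
          rw [hq]
          simp only
          congr 1
          funext j
          cases S j <;> rfl
        have e2 : q j false true = φ j (fun j => !S j) := by
          rw [hq]
          simp only
          congr 1
          funext j
          cases S j <;> rfl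
        rw [← e1, ← e2]
        rcases h' with h' | h' <;> rw [h', h'] <;> rfl
      · exact h'

theorem exists_three (f : (Fin k → Bool) → Bool) (h0 : f (fun _ => false) = false)
    (hsd : ∀ v, f (fun j => !v j) = !f v) (hna : ¬ Affine f) :
    ∃ S T : Fin k → Bool, xor (f (fun j => if S j then true else if T j then false else false))
      (xor (f (fun j => if S j then false else if T j then true else false))
        (f (fun j => if S j then false else if T j then false else true))) = false := by
  by_contra hcon
  push Not at hcon
  apply hna
  have hadd : ∀ u v : Fin k → Bool, (∀ j, ¬ (u j = true ∧ v j = true)) →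
      f (fun j => u j || v j) = xor (f u) (f v) := by
    intro u v huv
    have h1 := hcon u v
    have e1 : (fun j => if u j then true else if v j then false else false) = u := by
      funext j
      cases u j <;> cases v j <;> rfl
    have e2 : (fun j => if u j then false else if v j then true else false) = v := by
      funext j
      have := huv j
      revert this
      cases u j <;> cases v j <;> simp
    have e3 : (fun j => if u j then false else if v j then false else true) =
        fun j => !(u j || v j) := by
      funext j
      cases u j <;> cases v j <;> rfl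
    rw [e1, e2, e3, hsd (fun j => u j || v j)] at h1
    revert h1
    cases f u <;> cases f v <;> cases f (fun j => u j || v j) <;> simp
  have hsum : ∀ T : Finset (Fin k), (if f (fun j => decide (j ∈ T)) then (1 : ZMod 2) else 0) =
      ∑ j ∈ T, (if f (fun l => decide (l = j)) then (1 : ZMod 2) else 0) := by
    intro T
    induction T using Finset.induction_on with
    | empty =>
      simp [h0]
    | insert i T hi ih =>
      rw [sum_insert hi, ← ih]
      have h1 := hadd (fun l => decide (l = i)) (fun l => decide (l ∈ T)) (by
        intro j
        simp only [decide_eq_true_eq]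
        rintro ⟨rfl, h⟩
        exact hi h)
      have h2 : (fun j => decide (j ∈ insert i T)) = fun j => (decide (j = i) || decide (j ∈ T)) := by
        funext j
        simp [mem_insert]
      rw [h2, h1]
      cases f (fun l => decide (l = i)) <;> cases f (fun l => decide (l ∈ T)) <;> simp
      decide
  refine ⟨0, fun j => if f (fun l => decide (l = j)) then 1 else 0, fun v => ?_⟩
  have h1 := hsum (univ.filter fun j => v j = true)
  have h2 : (fun j => decide (j ∈ univ.filter fun j => v j = true)) = v := by
    funext j
    simp
  rw [h2] at h1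
  rw [h1, zero_add, sum_filter]
  refine sum_congr rfl fun j _ => ?_
  cases v j
  · rw [if_neg (by simp), if_neg (by simp), mul_zero]
  · rw [if_pos rfl, if_pos rfl, mul_one]

theorem affine_add {f : (Fin k → Bool) → Bool} (hf : Affine f) (h0 : f (fun _ => false) = false)
    (u v : Fin k → Bool) : f (fun j => xor (u j) (v j)) = xor (f u) (f v) := by
  obtain ⟨c0, a, ha⟩ := hf
  have hc0 : c0 = 0 := by
    have := ha (fun _ => false)
    rw [h0] at this
    simpa using this.symm
  subst hc0
  have h2 : (1 : ZMod 2) + 1 = 0 := by decide
  have e : (if f (fun j => xor (u j) (v j)) then (1 : ZMod 2) else 0) =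
      (if f u then (1 : ZMod 2) else 0) + (if f v then (1 : ZMod 2) else 0) := by
    rw [ha, ha, ha, zero_add, zero_add, zero_add, ← sum_add_distrib]
    refine sum_congr rfl fun j _ => ?_
    rw [← mul_add]
    congr 1
    cases u j <;> cases v j <;> simp [h2]
  revert e
  cases f (fun j => xor (u j) (v j)) <;> cases f u <;> cases f v <;> simp [h2]

/-- the minors of an affine operation -/
theorem affine_minor {f : (Fin k → Bool) → Bool} (hf : Affine f) (h1 : f (fun _ => true) = true)
    (h0 : f (fun _ => false) = false) (S T : Fin k → Bool) :
    Min3 (fun a b c => f (fun j => if S j then a else if T j then b else c)) ∨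
      Prj (fun a b c => f (fun j => if S j then a else if T j then b else c)) := by
  refine lin_cases ?_ ?_
  · simp only [ite_self]
    exact h1
  · intro a b c a' b' c'
    beta_reduce
    rw [← affine_add hf h0]
    congr 1
    funext j
    split_ifs <;> rfl

theorem affine_sd {f : (Fin k → Bool) → Bool} (hf : Affine f) (h1 : f (fun _ => true) = true)
    (h0 : f (fun _ => false) = false) : ¬ NSD f := by
  rintro ⟨v, hv⟩
  have h2 := affine_add hf h0 v (fun _ => true)
  rw [h1] at h2
  have h3 : (fun j => xor (v j) ((fun _ => true) j)) = fun j => !v j := by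
    funext j
    cases v j <;> rfl
  rw [h3, ← hv] at h2
  revert h2
  cases f v <;> simp

theorem exists_maj [DecidableEq ι] (hcl : Closed B φ) (h1 : ∀ i, φ i (fun _ => true) = true)
    (h0 : ∀ i, φ i (fun _ => false) = false) (W : Finset ι) :
    (∀ i ∈ W, ¬ NSD (φ i) ∧ ¬ Affine (φ i)) →
    ∃ g, Cl3 B g ∧ (∀ i, g i true true true = true ∧ g i false false false = false) ∧
      (∀ i ∈ W, Maj (g i)) ∧ (∀ i, ¬ NSD (φ i) → Maj (g i) ∨ Prj (g i)) ∧
      ∀ i, Affine (φ i) → Prj (g i) := by
  induction W using Finset.induction_on with
  | empty =>
    intro _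
    exact ⟨fun _ a _ _ => a, fun u hu _ _ _ _ => hu, fun i => ⟨rfl, rfl⟩, by simp,
      fun i _ => Or.inr (Or.inl fun _ _ _ => rfl), fun i _ => Or.inl fun _ _ _ => rfl⟩
  | insert i W hi ih =>
    intro hW
    obtain ⟨g, hg1, hg2, hg3, hg4, hg5⟩ := ih fun j hj => hW j (mem_insert_of_mem hj)
    have hsd : ∀ j, ¬ NSD (φ j) → ∀ v, φ j (fun l => !v l) = !φ j v := by
      intro j hj v
      unfold NSD at hj
      push Not at hj
      have := hj v
      revert this
      cases φ j v <;> cases φ j (fun l => !v l) <;> simp
    obtain ⟨S, T, hST⟩ := exists_three (φ i) (h0 i) (hsd i (hW i (mem_insert_self i W)).1)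
      (hW i (mem_insert_self i W)).2
    set m : ι → Bool → Bool → Bool → Bool :=
      fun i a b c => φ i (fun j => if S j then a else if T j then b else c) with hm
    have hm1 : Cl3 B m := minor3 hcl S T
    have hmt : ∀ j, m j true true true = true := fun j => by
      have e := h1 j
      rw [hm]
      simp only [ite_self]
      exact e
    have hmf : ∀ j, m j false false false = false := fun j => by
      have e := h0 j
      rw [hm]
      simp only [ite_self]
      exact e
    have hmsd : ∀ j, ¬ NSD (φ j) → ∀ a b c, m j (!a) (!b) (!c) = !m j a b c := by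
      intro j hj a b c
      rw [hm]
      simp only
      rw [← hsd j hj]
      congr 1
      funext l
      split_ifs <;> rfl
    have hn : ∀ j, nrm (m j) true true true = true ∧ nrm (m j) false false false = false := by
      intro j
      unfold nrm
      simp [hmt, hmf]
    refine ⟨fun j => cyc (g j) (nrm (m j)), cyc_cl hg1 (nrm_cl hm1), ?_, ?_, ?_,
      fun j hj => cyc_prj (hg5 j hj) (nrm_prj (affine_minor hj (h1 j) (h0 j) S T))⟩
    · intro j
      unfold cyc
      simp only [(hg2 j).1, (hg2 j).2, (hn j).1, (hn j).2, and_self]
    · intro j hj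
      have hj' := (hW j hj).1
      rcases hg4 j hj' with h | h
      · exact cyc_maj_left h (hn j).1 (hn j).2
      · rcases mem_insert.mp hj with rfl | hj
        · exact (cyc_spec h (nrm_spec (m j) (hmt j) (hmsd j hj')).1).2
            ((nrm_spec (m j) (hmt j) (hmsd j hj')).2 hST)
        · exact cyc_maj_left (hg3 j hj) (hn j).1 (hn j).2
    · intro j hj
      rcases hg4 j hj with h | h
      · exact Or.inl (cyc_maj_left h (hn j).1 (hn j).2)
      · exact (cyc_spec h (nrm_spec (m j) (hmt j) (hmsd j hj)).1).1

/-- `f` is a projection -/
def IsProj (f : (Fin k → Bool) → Bool) : Prop := ∃ j, ∀ v, f v = v j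

theorem exists_xor {f : (Fin k → Bool) → Bool} (hf : Affine f) (h1 : f (fun _ => true) = true)
    (h0 : f (fun _ => false) = false) (hnp : ¬ IsProj f) :
    ∃ S T : Fin k → Bool, Min3 (fun a b c => f (fun j => if S j then a else if T j then b else c)) := by
  classical
  by_contra hcon
  push Not at hcon
  obtain ⟨c0, a, ha⟩ := id hf
  have hc0 : c0 = 0 := by
    have := ha (fun _ => false)
    rw [h0] at this
    simpa using this.symm
  subst hc0
  have hsum : ∑ j, a j = 1 := by
    have := ha (fun _ => true)
    rw [h1] at this
    simpa using this.symm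
  have hex : ∃ j, a j = 1 := by
    by_contra h
    push Not at h
    have h2 : ∀ j, a j = 0 := fun j => by
      have := h j
      revert this
      generalize a j = t
      revert t
      decide
    simp [h2] at hsum
  obtain ⟨j0, hj0⟩ := hex
  apply hnp
  refine ⟨j0, ?_⟩
  have hz : ∀ j, j ≠ j0 → a j = 0 := by
    intro j hj
    by_contra hne
    have hj1 : a j = 1 := by
      revert hne
      generalize a j = t
      revert t
      decide
    apply hcon (fun l => decide (l = j0)) (fun l => decide (l = j))
    rcases affine_minor hf h1 h0 (fun l => decide (l = j0)) (fun l => decide (l = j)) with h | h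
    · exact h
    · exfalso
      have e1 : f (fun l => decide (l = j0)) = true := by
        have := ha (fun l => decide (l = j0))
        simp only [decide_eq_true_eq, mul_ite, mul_one, mul_zero, sum_ite_eq', mem_univ, if_true,
          zero_add, hj0] at this
        by_contra hh
        rw [if_neg hh] at this
        exact absurd this (by decide)
      have e2 : f (fun l => decide (l = j)) = true := by
        have := ha (fun l => decide (l = j))
        simp only [decide_eq_true_eq, mul_ite, mul_one, mul_zero, sum_ite_eq', mem_univ, if_true,
          zero_add, hj1] at this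
        by_contra hh
        rw [if_neg hh] at this
        exact absurd this (by decide)
      have f1 : (fun l => if decide (l = j0) = true then true else if decide (l = j) = true then
          false else false) = fun l => decide (l = j0) := by
        funext l
        by_cases h : l = j0 <;> simp [h]
      have f2 : (fun l => if decide (l = j0) = true then false else if decide (l = j) = true then
          true else false) = fun l => decide (l = j) := by
        funext l
        by_cases h : l = j0
        · subst h
          simp [Ne.symm hj]
        · simp [h]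
      rcases h with h | h | h
      · have := h false true false
        beta_reduce at this
        rw [f2, e2] at this
        simp at this
      · have := h true false false
        beta_reduce at this
        rw [f1, e1] at this
        simp at this
      · have := h true false false
        beta_reduce at this
        rw [f1, e1] at this
        simp at this
  intro v
  have h2 := ha v
  rw [zero_add, sum_eq_single j0 (fun j _ hj => by rw [hz j hj, zero_mul])
    (fun h => absurd (mem_univ _) h), hj0, one_mul] at h2
  revert h2
  cases f v <;> cases v j0 <;> simp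

theorem exists_min [DecidableEq ι] (hcl : Closed B φ) (h1 : ∀ i, φ i (fun _ => true) = true)
    (h0 : ∀ i, φ i (fun _ => false) = false) (hnp : ∀ i, ¬ IsProj (φ i)) (W : Finset ι) :
    (∀ i ∈ W, Affine (φ i)) →
    ∃ g, Cl3 B g ∧ (∀ i, g i true true true = true ∧ g i false false false = false) ∧
      (∀ i ∈ W, Min3 (g i)) ∧ ∀ i, Affine (φ i) → Min3 (g i) ∨ Prj (g i) := by
  induction W using Finset.induction_on with
  | empty =>
    intro _
    exact ⟨fun _ a _ _ => a, fun u hu _ _ _ _ => hu, fun i => ⟨rfl, rfl⟩, by simp,
      fun i _ => Or.inr (Or.inl fun _ _ _ => rfl)⟩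
  | insert i W hi ih =>
    intro hW
    obtain ⟨g, hg1, hg2, hg3, hg4⟩ := ih fun j hj => hW j (mem_insert_of_mem hj)
    obtain ⟨S, T, hST⟩ := exists_xor (hW i (mem_insert_self i W)) (h1 i) (h0 i) (hnp i)
    set m : ι → Bool → Bool → Bool → Bool :=
      fun i a b c => φ i (fun j => if S j then a else if T j then b else c) with hm
    have hm1 : Cl3 B m := minor3 hcl S T
    have hmt : ∀ j, m j true true true = true := fun j => by
      have e := h1 j
      rw [hm]
      simp only [ite_self]
      exact e
    have hmf : ∀ j, m j false false false = false := fun j => by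
      have e := h0 j
      rw [hm]
      simp only [ite_self]
      exact e
    refine ⟨fun j => cyc (g j) (m j), cyc_cl hg1 hm1, ?_, ?_, ?_⟩
    · intro j
      unfold cyc
      simp only [(hg2 j).1, (hg2 j).2, hmt j, hmf j, and_self]
    · intro j hj
      rcases hg4 j (hW j hj) with h | h
      · exact cyc_min_left h (hmt j) (hmf j)
      · rcases mem_insert.mp hj with rfl | hj'
        · exact cyc_min_right h hST
        · exact cyc_min_left (hg3 j hj') (hmt j) (hmf j)
    · intro j hj
      rcases hg4 j hj with h | h
      · exact Or.inl (cyc_min_left h (hmt j) (hmf j))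
      · rcases affine_minor hj (h1 j) (h0 j) S T with h' | h'
        · exact Or.inl (cyc_min_right h h')
        · exact Or.inr (cyc_prj h h')

/-- **Post's lemma for several coordinates.** -/
theorem post [Fintype ι] (hcl : Closed B φ) (h1 : ∀ i, φ i (fun _ => true) = true)
    (h0 : ∀ i, φ i (fun _ => false) = false) (hnp : ∀ i, ¬ IsProj (φ i)) :
    ∃ t : ι → Bool → Bool → Bool → Bool, Cl3 B t ∧
      ∀ i, (∀ a b c, t i a b c = (a && b && c)) ∨ (∀ a b c, t i a b c = (a || b || c)) ∨
        Maj (t i) ∨ (Affine (φ i) ∧ Min3 (t i)) := by
  classical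
  obtain ⟨p, hp1, hp2, _, hp4⟩ := exists_sl hcl h1 h0 (univ.filter fun i => NSD (φ i))
    (fun i hi => (mem_filter.mp hi).2)
  obtain ⟨g, hg1, hg2, hg3, _, hg5⟩ := exists_maj hcl h1 h0
    (univ.filter fun i => ¬ NSD (φ i) ∧ ¬ Affine (φ i)) (fun i hi => (mem_filter.mp hi).2)
  obtain ⟨m, hm1, hm2, hm3, _⟩ := exists_min hcl h1 h0 hnp
    (univ.filter fun i => Affine (φ i)) (fun i hi => (mem_filter.mp hi).2)
  have hp3 : Cl3 B (fun i x y z => p i (p i x y) z) := fun u hu v hv w hw =>
    hp1 _ (hp1 u hu v hv) w hw
  refine ⟨fun i => cyc (fun x y z => p i (p i x y) z) (cyc (g i) (m i)),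
    cyc_cl hp3 (cyc_cl hg1 hm1), fun i => ?_⟩
  have hi1 : cyc (g i) (m i) true true true = true := by
    unfold cyc
    rw [(hg2 i).1, (hm2 i).1]
  have hi0 : cyc (g i) (m i) false false false = false := by
    unfold cyc
    rw [(hg2 i).2, (hm2 i).2]
  by_cases hi : NSD (φ i)
  · rcases hp2 i (mem_filter.mpr ⟨mem_univ _, hi⟩) with h | h
    · left
      intro a b c
      show cyc (g i) (m i) _ _ _ = _
      simp only [h]
      cases a <;> cases b <;> cases c <;> simp [hi1, hi0]
    · right; left
      intro a b c
      show cyc (g i) (m i) _ _ _ = _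
      simp only [h]
      cases a <;> cases b <;> cases c <;> simp [hi1, hi0]
  · right; right
    have h := hp4 i hi
    have e : cyc (fun x y z => p i (p i x y) z) (cyc (g i) (m i)) = cyc (g i) (m i) := by
      funext a b c
      have e1 : ∀ x y z, p i (p i x y) z = x := fun x y z => by rw [h, h]
      show cyc (g i) (m i) (p i (p i a b) c) (p i (p i b c) a) (p i (p i c a) b) = _
      rw [e1, e1, e1]
    beta_reduce
    rw [e]
    by_cases ha : Affine (φ i)
    · right
      exact ⟨ha, cyc_min_right (hg5 i ha) (hm3 i (mem_filter.mpr ⟨mem_univ _, ha⟩))⟩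
    · left
      exact cyc_maj_left (hg3 i (mem_filter.mpr ⟨mem_univ _, hi, ha⟩)) (hm2 i).1 (hm2 i).2

end main

end Pool.Agent.K4H93.LRP
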