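import Pool.Agent.K4H93.LRP.Maj
import Pool.Agent.K4H93.LRP.Post
import Pool.Agent.K4H93.LRP.Bind
import Pool.Agent.K4H92.ANDF.Fact

/-!
Boolean affine functionals on a set of 0-1-vectors which is closed under an operation that is the
conjunction in some coordinates and the majority in the other ones.
-/

set_option autoImplicit false
set_option linter.unusedSectionVars false

namespace Pool.Agent.K4H93.LRP

open Finset Pool.Agent.H630R2.LR

section mixed

variable {X Y ι : Type*} [Fintype X] [Fintype Y] [Fintype ι] [DecidableEq ι]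

/-- a Boolean function whose real value is `(g² + σ g) / 2` with `g` a linear functional on a set of
0-1-vectors which is closed under conjunction on the relevant coordinates -/
theorem half_proto (P : X → Y → Bool) (I : Finset ι) (ψ : Y → ι → Bool)
    (hp : ∀ J : Finset Y, J.Nonempty → ∃ y, ∀ i ∈ I, (ψ y i = true ↔ ∀ z ∈ J, ψ z i = true))
    (b : X → Option ι → ℝ) (hb : ∀ x i, i ∉ I → b x (some i) = 0) (σ : ℝ)
    (hP : ∀ x y, bv (P x y) = ((∑ p : Option ι, b x p * (p.elim 1 fun i => bv (ψ y i))) ^ 2 +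
      σ * ∑ p : Option ι, b x p * (p.elim 1 fun i => bv (ψ y i))) / 2) :
    ∃ c, Proto P c ∧ (c : ℝ) ≤ 3000 *
      (Real.logb 2 (((Fintype.card ι + 1) ^ 2 : ℕ) : ℝ) + 1) ^ 7 := by
  classical
  set u0 : Option ι → Y → Bool := fun p y => p.elim true (ψ y) with hu0
  have hbv : ∀ (p : Option ι) (y : Y), (p.elim 1 fun i => bv (ψ y i)) = bv (u0 p y) := by
    intro p y
    cases p <;> rfl
  have hcard : Fintype.card (Option ι × Option ι) = (Fintype.card ι + 1) ^ 2 := by
    rw [Fintype.card_prod, Fintype.card_option, sq]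
  let e : Fin ((Fintype.card ι + 1) ^ 2) ≃ Option ι × Option ι :=
    (Fintype.equivFinOfCardEq hcard).symm
  set u : Fin ((Fintype.card ι + 1) ^ 2) → Y → Bool := fun z y => u0 (e z).1 y && u0 (e z).2 y
    with hu
  set h0 : Option ι × Option ι → X → ℝ := fun z x =>
    (b x z.1 * b x z.2 + if z.2 = none then σ * b x z.1 else 0) / 2 with hh0
  set h : Fin ((Fintype.card ι + 1) ^ 2) → X → ℝ := fun z x => h0 (e z) x with hh
  have key : ∀ (J : Finset Y), J.Nonempty → ∀ (x : X) (y0 : Y),
      (∀ i ∈ I, (ψ y0 i = true ↔ ∀ z ∈ J, ψ z i = true)) →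
      ∑ z with ∀ y ∈ J, u z y = true, h z x = bv (P x y0) := by
    intro J hJ x y0 hy0
    have h1 : ∑ z with ∀ y ∈ J, u z y = true, h z x =
        ∑ z : Option ι × Option ι, if (∀ y ∈ J, (u0 z.1 y && u0 z.2 y) = true) then h0 z x
          else 0 := by
      rw [sum_filter]
      exact Fintype.sum_equiv e _ _ fun z => rfl
    have h2 : ∀ p : Option ι, b x p ≠ 0 → (u0 p y0 = true ↔ ∀ y ∈ J, u0 p y = true) := by
      intro p hp
      cases p with
      | none => simp [hu0]
      | some i =>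
        have hi : i ∈ I := by
          by_contra hi
          exact hp (hb x i hi)
        exact hy0 i hi
    have h3 : ∀ z : Option ι × Option ι, (if (∀ y ∈ J, (u0 z.1 y && u0 z.2 y) = true) then h0 z x
          else 0) = h0 z x * (bv (u0 z.1 y0) * bv (u0 z.2 y0)) := by
      rintro ⟨p, q⟩
      simp only
      by_cases hbp : b x p = 0
      · have : h0 (p, q) x = 0 := by
          rw [hh0]
          simp [hbp]
        rw [this]
        simp
      · by_cases hbq : b x q = 0 ∧ q ≠ none
        · have : h0 (p, q) x = 0 := by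
            rw [hh0]
            simp [hbq.1, hbq.2]
          rw [this]
          simp
        · have h4 := h2 p hbp
          have h5 : u0 q y0 = true ↔ ∀ y ∈ J, u0 q y = true := by
            by_cases hq : q = none
            · subst hq
              simp [hu0]
            · exact h2 q (fun h => hbq ⟨h, hq⟩)
          have h6 : (∀ y ∈ J, (u0 p y && u0 q y) = true) ↔ (u0 p y0 = true ∧ u0 q y0 = true) := by
            rw [h4, h5]
            simp only [Bool.and_eq_true]
            exact ⟨fun h => ⟨fun y hy => (h y hy).1, fun y hy => (h y hy).2⟩,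
              fun h y hy => ⟨h.1 y hy, h.2 y hy⟩⟩
          by_cases h7 : u0 p y0 = true ∧ u0 q y0 = true
          · rw [if_pos (h6.mpr h7), h7.1, h7.2]
            simp [bv]
          · rw [if_neg (fun h => h7 (h6.mp h))]
            have h8 : bv (u0 p y0) * bv (u0 q y0) = 0 := by
              revert h7
              cases u0 p y0 <;> cases u0 q y0 <;> simp [bv]
            rw [h8, mul_zero]
    rw [h1, sum_congr rfl fun z _ => h3 z, hP, Fintype.sum_prod_type]
    have h4 : ∀ p : Option ι, ∑ q : Option ι, h0 (p, q) x * (bv (u0 p y0) * bv (u0 q y0)) =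
        ((b x p * bv (u0 p y0)) * (∑ q : Option ι, b x q * bv (u0 q y0)) +
          σ * (b x p * bv (u0 p y0))) / 2 := by
      intro p
      have h5 : ∀ q : Option ι, h0 (p, q) x * (bv (u0 p y0) * bv (u0 q y0)) =
          (b x p * bv (u0 p y0)) * (b x q * bv (u0 q y0)) / 2 +
            (if q = none then σ * (b x p * bv (u0 p y0)) / 2 else 0) := by
        intro q
        rw [hh0]
        simp only
        by_cases hq : q = none
        · subst hq
          rw [if_pos rfl, if_pos rfl]
          have : bv (u0 none y0) = 1 := rfl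
          rw [this]
          ring
        · rw [if_neg hq, if_neg hq]
          ring
      rw [sum_congr rfl fun q _ => h5 q, sum_add_distrib, sum_ite_eq' univ none, if_pos (mem_univ _),
        ← sum_div, ← mul_sum]
      ring
    rw [sum_congr rfl fun p _ => h4 p, ← sum_div, sum_add_distrib, ← sum_mul, ← mul_sum]
    simp only [hbv]
    ring
  have hst : Pool.Agent.K4H92.ANDF.Stable (fun y x => P x y)
      {v | Pool.Agent.K4H92.ANDF.Rng 1 v} ((Fintype.card ι + 1) ^ 2) := by
    refine ⟨u, h, fun y x => ?_, fun J hJ x => ?_⟩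
    · have h1 := key {y} (singleton_nonempty y) x y (fun i _ => by simp)
      have h2 : (univ.filter fun z => u z y = true) =
          univ.filter fun z => ∀ y' ∈ ({y} : Finset Y), u z y' = true := by
        ext z
        simp
      rw [h2, h1]
      rfl
    · obtain ⟨y0, hy0⟩ := hp J hJ
      have h1 := key J hJ x y0 hy0
      have h2 : ∀ v : ℝ, v = bv (P x y0) → Pool.Agent.K4H92.ANDF.Rng 1 v := by
        rintro v rfl
        unfold bv
        split_ifs
        · exact ⟨1, by simp, by simp⟩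
        · exact ⟨0, by simp, by simp⟩
      refine h2 _ ?_
      convert h1
  obtain ⟨c, hc, hcb⟩ := Pool.Agent.K4H92.ANDF.proto_stable _ 1 _ le_rfl hst
  refine ⟨c, hc.swap, hcb.trans (le_of_eq ?_)⟩
  push_cast
  ring

/-- the bound -/
theorem num_bound (s : ℕ) : 3000 * (Real.logb 2 (((s + 1) ^ 2 : ℕ) : ℝ) + 1) ^ 7 +
    ((20 * (Nat.log 2 (s + 1) + 1) ^ 3 : ℕ) : ℝ) ≤ 10000000 * (Real.logb 2 (s : ℝ) + 1) ^ 7 := by
  have h0 : 0 ≤ Real.logb 2 (s : ℝ) := logb_nonneg s
  have h1 : Real.logb 2 ((s + 1 : ℕ) : ℝ) ≤ Real.logb 2 (s : ℝ) + 1 := by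
    rcases Nat.eq_zero_or_pos s with rfl | hs
    · simp
    · have h2 : Real.logb 2 ((s + 1 : ℕ) : ℝ) ≤ Real.logb 2 (2 * (s : ℝ)) := by
        refine Real.logb_le_logb_of_le (by norm_num) (by positivity) ?_
        have : (1 : ℝ) ≤ s := by exact_mod_cast hs
        push_cast
        linarith
      rw [Real.logb_mul (by norm_num) (by positivity), Real.logb_self_eq_one (by norm_num)] at h2
      linarith
  have h1' : 0 ≤ Real.logb 2 ((s + 1 : ℕ) : ℝ) := logb_nonneg _
  set L := Real.logb 2 (s : ℝ) + 1 with hL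
  have hL1 : 1 ≤ L := by linarith
  have h2 : Real.logb 2 (((s + 1) ^ 2 : ℕ) : ℝ) + 1 ≤ 3 * L := by
    have : (((s + 1) ^ 2 : ℕ) : ℝ) = ((s + 1 : ℕ) : ℝ) ^ 2 := by push_cast; ring
    rw [this, Real.logb_pow]
    push_cast at h1 ⊢
    linarith
  have h2' : 0 ≤ Real.logb 2 (((s + 1) ^ 2 : ℕ) : ℝ) := logb_nonneg _
  have h3 : ((Nat.log 2 (s + 1) + 1 : ℕ) : ℝ) ≤ 2 * L := by
    have := log_le (s + 1)
    push_cast at this h1 ⊢
    linarith
  have h4 : (Real.logb 2 (((s + 1) ^ 2 : ℕ) : ℝ) + 1) ^ 7 ≤ (3 * L) ^ 7 :=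
    pow_le_pow_left₀ (by linarith) h2 7
  have h5 : ((Nat.log 2 (s + 1) + 1 : ℕ) : ℝ) ^ 3 ≤ (2 * L) ^ 3 :=
    pow_le_pow_left₀ (Nat.cast_nonneg _) h3 3
  have h6 : L ^ 3 ≤ L ^ 7 := pow_le_pow_right₀ hL1 (by norm_num)
  have h7 : ((20 * (Nat.log 2 (s + 1) + 1) ^ 3 : ℕ) : ℝ) =
      20 * ((Nat.log 2 (s + 1) + 1 : ℕ) : ℝ) ^ 3 := by push_cast; ring
  rw [h7]
  have h8 : 0 ≤ L ^ 7 := by positivity
  nlinarith

/-- The conjunction part can be split off. -/
theorem conj_part (G : X → Y → Bool) (ψ : Y → ι → Bool) (c : X → ℝ) (A : X → ι → ℝ)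
    (hrep : ∀ x y, bv (G x y) = c x + ∑ i, A x i * bv (ψ y i)) (I : Finset ι)
    (hp : ∀ y1 y2, ∃ y, ∀ i, ψ y i = if i ∈ I then (ψ y1 i && ψ y2 i) else ψ y2 i) :
    ∃ (base : Y → Y) (m : ι → Bool), (∀ y, ∀ i ∈ I, ψ (base y) i = m i) ∧
      (∀ y i, i ∉ I → ψ (base y) i = ψ y i) ∧
      ∀ d2, Proto (fun x y => G x (base y)) d2 → ∃ d1, Proto G (d1 + d2) ∧
        (d1 : ℝ) ≤ 3000 * (Real.logb 2 (((Fintype.card ι + 1) ^ 2 : ℕ) : ℝ) + 1) ^ 7 := by
  classical
  have hT : ∀ (T : Finset Y) (y : Y), ∃ y', (∀ i ∈ I, (ψ y' i = true ↔ ψ y i = true ∧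
      ∀ z ∈ T, ψ z i = true)) ∧ ∀ i, i ∉ I → ψ y' i = ψ y i := by
    intro T y
    induction T using Finset.induction_on with
    | empty => exact ⟨y, by simp, fun i _ => rfl⟩
    | insert z T _ ih =>
      obtain ⟨y', h1, h2⟩ := ih
      obtain ⟨y'', hy''⟩ := hp z y'
      refine ⟨y'', fun i hi => ?_, fun i hi => ?_⟩
      · rw [hy'', if_pos hi, Bool.and_eq_true, h1 i hi]
        simp only [mem_insert, forall_eq_or_imp]
        tauto
      · rw [hy'', if_neg hi, h2 i hi]
  choose base hbase1 hbase2 using fun y => hT univ y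
  set m : ι → Bool := fun i => decide (∀ z, ψ z i = true) with hm
  have hbm : ∀ y, ∀ i ∈ I, ψ (base y) i = m i := by
    intro y i hi
    rw [Bool.eq_iff_iff, hbase1 y i hi, hm]
    simp only [mem_univ, forall_const, decide_eq_true_eq]
    exact ⟨fun h => h.2, fun h => ⟨h y, h⟩⟩
  refine ⟨base, m, hbm, hbase2, fun d2 hM => ?_⟩
  set G2 : X → Y → Bool := fun x y => G x (base y) with hG2
  set b : X → Option ι → ℝ := fun x p => p.elim (-∑ i ∈ I, A x i * bv (m i))
    (fun i => if i ∈ I then A x i else 0) with hb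
  have hg : ∀ x y, ∑ p : Option ι, b x p * (p.elim 1 fun i => bv (ψ y i)) =
      bv (G x y) - bv (G2 x y) := by
    intro x y
    rw [Fintype.sum_option]
    have e0 : bv (G x y) - bv (G2 x y) = ∑ i, A x i * (bv (ψ y i) - bv (ψ (base y) i)) := by
      rw [hG2]
      simp only
      rw [hrep, hrep]
      simp only [mul_sub, sum_sub_distrib]
      ring
    have e1 : ∑ i, A x i * (bv (ψ y i) - bv (ψ (base y) i)) =
        ∑ i ∈ I, A x i * (bv (ψ y i) - bv (m i)) := by
      rw [← sum_subset (subset_univ I)]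
      · refine sum_congr rfl fun i hi => ?_
        rw [hbm y i hi]
      · intro i _ hi
        rw [hbase2 y i hi, sub_self, mul_zero]
    rw [e0, e1]
    have e2 : ∑ i, b x (some i) * ((some i).elim 1 fun i => bv (ψ y i)) =
        ∑ i ∈ I, A x i * bv (ψ y i) := by
      rw [← sum_subset (subset_univ I)]
      · refine sum_congr rfl fun i hi => ?_
        show (if i ∈ I then A x i else 0) * bv (ψ y i) = _
        rw [if_pos hi]
      · intro i _ hi
        show (if i ∈ I then A x i else 0) * bv (ψ y i) = 0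
        rw [if_neg hi, zero_mul]
    rw [e2]
    show (-∑ i ∈ I, A x i * bv (m i)) * 1 + _ = _
    simp only [mul_sub, sum_sub_distrib]
    ring
  have hp2 : ∀ J : Finset Y, J.Nonempty → ∃ y, ∀ i ∈ I, (ψ y i = true ↔ ∀ z ∈ J, ψ z i = true) := by
    rintro J ⟨y0, hy0⟩
    obtain ⟨y, hy, _⟩ := hT J y0
    refine ⟨y, fun i hi => ?_⟩
    rw [hy i hi]
    exact ⟨fun h => h.2, fun h => ⟨h y0 hy0, h⟩⟩
  have hbI : ∀ x i, i ∉ I → b x (some i) = 0 := by
    intro x i hi
    show (if i ∈ I then A x i else 0) = 0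
    rw [if_neg hi]
  obtain ⟨c1, hc1, hc1b⟩ := half_proto (fun x y => G x y && !G2 x y) I ψ hp2 b hbI 1 (by
    intro x y
    rw [hg]
    cases G x y <;> cases G2 x y <;> norm_num [bv])
  obtain ⟨c2, hc2, hc2b⟩ := half_proto (fun x y => !G x y && G2 x y) I ψ hp2 b hbI (-1) (by
    intro x y
    rw [hg]
    cases G x y <;> cases G2 x y <;> norm_num [bv])
  have hbind := bind (fun v x y => if v then !(!G x y && G2 x y) else (G x y && !G2 x y))
    (d := max c1 c2) (fun v => by
      cases v
      · simp only [Bool.false_eq_true, if_false]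
        exact hc1.mono (le_max_left _ _)
      · simp only [if_true]
        exact (compl hc2).mono (le_max_right _ _)) hM
  have hGG : (fun x y => if G2 x y then !(!G x y && G2 x y) else (G x y && !G2 x y)) = G := by
    funext x y
    cases h1 : G x y <;> cases h2 : G2 x y <;> simp
  rw [hGG] at hbind
  refine ⟨max c1 c2, hbind, ?_⟩
  rcases max_cases c1 c2 with ⟨h, _⟩ | ⟨h, _⟩ <;> rw [h]
  · exact hc1b
  · exact hc2b

/-- the sum over the coordinates outside `I` -/
theorem sum_outside (a : ι → ℝ) (I : Finset ι) (v : ι → Bool) (m : ι → Bool)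
    (hv : ∀ i ∈ I, v i = m i) :
    ∑ i, a i * bv (v i) = ∑ i ∈ I, a i * bv (m i) + ∑ i, a i * bv (if i ∈ I then false else v i) := by
  classical
  rw [← sum_filter_add_sum_filter_not univ (fun i => i ∈ I)]
  rw [← sum_filter_add_sum_filter_not univ (fun i => i ∈ I)
    (fun i => a i * bv (if i ∈ I then false else v i))]
  have e1 : (univ.filter fun i => i ∈ I) = I := by
    ext i
    simp
  rw [e1]
  have e2 : ∑ i ∈ I, a i * bv (if i ∈ I then false else v i) = 0 := by
    refine sum_eq_zero fun i hi => ?_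
    rw [if_pos hi]
    simp [bv]
  rw [e2, zero_add]
  congr 1
  · refine sum_congr rfl fun i hi => ?_
    rw [hv i hi]
  · refine sum_congr rfl fun i hi => ?_
    rw [mem_filter] at hi
    rw [if_neg hi.2]

theorem mixed (G : X → Y → Bool) (ψ : Y → ι → Bool) (c : X → ℝ) (A : X → ι → ℝ)
    (hrep : ∀ x y, bv (G x y) = c x + ∑ i, A x i * bv (ψ y i)) (I : Finset ι)
    (hcl : ∀ y1 y2 y3, ∃ y, ∀ i, ψ y i = if i ∈ I then (ψ y1 i && ψ y2 i && ψ y3 i)
      else maj (ψ y1 i) (ψ y2 i) (ψ y3 i)) :
    ∃ d, Proto G d ∧ (d : ℝ) ≤ 10000000 * (Real.logb 2 (Fintype.card ι : ℝ) + 1) ^ 7 := by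
  classical
  obtain ⟨base, m, hbm, hbase2, hfin⟩ := conj_part G ψ c A hrep I (by
    intro y1 y2
    obtain ⟨y, hy⟩ := hcl y1 y2 y2
    refine ⟨y, fun i => ?_⟩
    rw [hy]
    split_ifs
    · cases ψ y1 i <;> cases ψ y2 i <;> rfl
    · cases ψ y1 i <;> cases ψ y2 i <;> rfl)
  set D := Nat.log 2 (Fintype.card ι + 1) + 1 with hD
  have hDs : Fintype.card ι + 1 < 2 ^ D := Nat.lt_pow_succ_log_self (by norm_num) _
  have hM : Proto (fun x y => G x (base y)) (20 * D ^ 3) := by
    refine maj_proto _ (fun y i => if i ∈ I then false else ψ y i)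
      (fun x => c x + ∑ i ∈ I, A x i * bv (m i)) A (fun x y => ?_) (fun y1 y2 y3 => ?_) D hDs
    · rw [hrep, add_assoc, sum_outside (A x) I (ψ (base y)) m (hbm y)]
      congr 2
      refine sum_congr rfl fun i _ => ?_
      by_cases hi : i ∈ I
      · simp [hi]
      · simp only [hi, if_false]
        rw [hbase2 y i hi]
    · obtain ⟨y, hy⟩ := hcl y1 y2 y3
      refine ⟨y, fun i => ?_⟩
      by_cases hi : i ∈ I
      · simp [hi, maj]
      · simp only [hi, if_false]
        rw [hy, if_neg hi]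
  obtain ⟨d1, hd1, hb1⟩ := hfin _ hM
  refine ⟨_, hd1, ?_⟩
  have hnb := num_bound (Fintype.card ι)
  rw [Nat.cast_add]
  exact (add_le_add_left hb1 _).trans hnb

/-- The affine part can be split off as well: `aff` bounds the affine case. -/
theorem mixed_aff (G : X → Y → Bool) (ψ : Y → ι → Bool) (c : X → ℝ) (A : X → ι → ℝ)
    (hrep : ∀ x y, bv (G x y) = c x + ∑ i, A x i * bv (ψ y i)) (I J : Finset ι)
    (hIJ : Disjoint I J)
    (hcl : ∀ y1 y2 y3, ∃ y, ∀ i, ψ y i = if i ∈ I then (ψ y1 i && ψ y2 i && ψ y3 i)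
      else if i ∈ J then xor (ψ y1 i) (xor (ψ y2 i) (ψ y3 i))
      else maj (ψ y1 i) (ψ y2 i) (ψ y3 i)) (d : ℕ)
    (haff : ∀ (G' : X → Y → Bool) (ψ' : Y → ι → Bool) (c' : X → ℝ),
      (∀ x y, bv (G' x y) = c' x + ∑ i, A x i * bv (ψ' y i)) →
      (∀ y1 y2 y3, ∃ y, ∀ i, ψ' y i = xor (ψ' y1 i) (xor (ψ' y2 i) (ψ' y3 i))) → Proto G' d) :
    ∃ d', Proto G d' ∧
      (d' : ℝ) ≤ 10000000 * (Real.logb 2 (Fintype.card ι : ℝ) + 1) ^ 7 + d + 1 := by
  classical
  have hIJ' : ∀ i ∈ J, i ∉ I := fun i hJ hI => Finset.disjoint_left.mp hIJ hI hJ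
  rcases isEmpty_or_nonempty Y with hY | ⟨⟨ystar⟩⟩
  · refine ⟨0, Proto.const G true (fun _ y => hY.elim y), ?_⟩
    have h0 : 0 ≤ Real.logb 2 (Fintype.card ι : ℝ) := logb_nonneg _
    rw [Nat.cast_zero]
    positivity
  obtain ⟨base, m, hbm, hbase2, hfin⟩ := conj_part G ψ c A hrep I (by
    intro y1 y2
    obtain ⟨y, hy⟩ := hcl y1 y1 y2
    obtain ⟨z, hz⟩ := hcl y y2 y2
    refine ⟨z, fun i => ?_⟩
    rw [hz, hy]
    by_cases hi : i ∈ I
    · simp only [hi, if_true]
      cases ψ y1 i <;> cases ψ y2 i <;> rfl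
    · by_cases hj : i ∈ J
      · simp only [hi, hj, if_true, if_false]
        cases ψ y1 i <;> cases ψ y2 i <;> rfl
      · simp only [hi, hj, if_false]
        cases ψ y1 i <;> cases ψ y2 i <;> rfl)
  -- the product structure outside `I`
  have hprod : ∀ y y', ∃ z, (∀ i ∈ I, ψ z i = m i) ∧ (∀ i ∈ J, ψ z i = ψ y i) ∧
      ∀ i, i ∉ I → i ∉ J → ψ z i = ψ y' i := by
    intro y y'
    obtain ⟨z, hz⟩ := hcl (base y) (base y') (base y')
    refine ⟨z, fun i hi => ?_, fun i hi => ?_, fun i hi hj => ?_⟩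
    · rw [hz, if_pos hi, hbm _ i hi, hbm _ i hi]
      cases m i <;> rfl
    · rw [hz, if_neg (hIJ' i hi), if_pos hi, hbase2 _ i (hIJ' i hi), hbase2 _ i (hIJ' i hi)]
      cases ψ y i <;> cases ψ y' i <;> rfl
    · rw [hz, if_neg hi, if_neg hj, hbase2 _ i hi, hbase2 _ i hi]
      cases ψ y i <;> cases ψ y' i <;> rfl
  choose r hr1 hr2 hr3 using hprod
  have hval : ∀ x y y', bv (G x (r y y')) = (c x + ∑ i ∈ I, A x i * bv (m i)) +
      ∑ i, A x i * bv (if i ∈ J then ψ y i else false) +
      ∑ i, A x i * bv (if i ∈ I ∨ i ∈ J then false else ψ y' i) := by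
    intro x y y'
    rw [hrep, sum_outside (A x) I (ψ (r y y')) m (hr1 y y')]
    have e : ∑ i, A x i * bv (if i ∈ I then false else ψ (r y y') i) =
        ∑ i, A x i * bv (if i ∈ J then ψ y i else false) +
          ∑ i, A x i * bv (if i ∈ I ∨ i ∈ J then false else ψ y' i) := by
      rw [← sum_add_distrib]
      refine sum_congr rfl fun i _ => ?_
      by_cases hi : i ∈ I
      · have hj : i ∉ J := fun h => hIJ' i h hi
        simp [hi, hj, bv]
      · by_cases hj : i ∈ J
        · simp only [hi, hj, if_true, if_false, or_true]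
          rw [hr2 y y' i hj]
          simp [bv]
        · simp only [hi, hj, if_false, or_self]
          rw [hr3 y y' i hi hj]
          simp [bv]
    rw [e]
    ring
  set D := Nat.log 2 (Fintype.card ι + 1) + 1 with hD
  have hDs : Fintype.card ι + 1 < 2 ^ D := Nat.lt_pow_succ_log_self (by norm_num) _
  -- the majority part
  have hM : Proto (fun x y => G x (r ystar y)) (20 * D ^ 3) := by
    refine maj_proto _ (fun y i => if i ∈ I ∨ i ∈ J then false else ψ y i)
      (fun x => (c x + ∑ i ∈ I, A x i * bv (m i)) +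
        ∑ i, A x i * bv (if i ∈ J then ψ ystar i else false)) A (fun x y => hval x ystar y)
      (fun y1 y2 y3 => ?_) D hDs
    obtain ⟨y, hy⟩ := hcl y1 y2 y3
    refine ⟨y, fun i => ?_⟩
    by_cases hi : i ∈ I ∨ i ∈ J
    · simp [hi, maj]
    · simp only [hi, if_false]
      rw [not_or] at hi
      rw [hy, if_neg hi.1, if_neg hi.2]
  -- the affine part
  have hA : Proto (fun x y => G x (r y ystar)) d := by
    refine haff _ (fun y i => if i ∈ J then ψ y i else false)
      (fun x => (c x + ∑ i ∈ I, A x i * bv (m i)) +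
        ∑ i, A x i * bv (if i ∈ I ∨ i ∈ J then false else ψ ystar i)) (fun x y => ?_)
      (fun y1 y2 y3 => ?_)
    · rw [hval]
      ring
    · obtain ⟨y, hy⟩ := hcl y1 y2 y3
      refine ⟨y, fun i => ?_⟩
      by_cases hi : i ∈ J
      · simp only [hi, if_true]
        rw [hy, if_neg (hIJ' i hi), if_pos hi]
      · simp [hi]
  have hbr : ∀ x y, G x (base y) = G x (r y y) := by
    intro x y
    apply bv_inj
    rw [hrep, hrep]
    congr 1
    refine sum_congr rfl fun i _ => ?_
    by_cases hi : i ∈ I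
    · rw [hbm y i hi, hr1 y y i hi]
    · rw [hbase2 y i hi]
      by_cases hj : i ∈ J
      · rw [hr2 y y i hj]
      · rw [hr3 y y i hi hj]
  set α : X → Bool := fun x => decide (∀ y, G x (r y ystar) = G x (r ystar ystar)) with hα
  have hG2 : Proto (fun x y => G x (base y)) (max (20 * D ^ 3) d + 1) := by
    refine Proto.alice _ α (fun v x y => if v then G x (r ystar y) else G x (r y ystar)) _
      (fun v => ?_) (fun x y => ?_)
    · cases v
      · simp only [Bool.false_eq_true, if_false]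
        exact hA.mono (le_max_right _ _)
      · simp only [if_true]
        exact hM.mono (le_max_left _ _)
    · rw [hbr]
      set g : Y → ℝ := fun y => ∑ i, A x i * bv (if i ∈ J then ψ y i else false) with hg
      set h : Y → ℝ := fun y => ∑ i, A x i * bv (if i ∈ I ∨ i ∈ J then false else ψ y i) with hh
      set c0 := c x + ∑ i ∈ I, A x i * bv (m i) with hc0
      have hv : ∀ y y', bv (G x (r y y')) = c0 + g y + h y' := fun y y' => hval x y y'
      by_cases hαx : α x = true
      · rw [if_pos hαx]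
        rw [hα] at hαx
        simp only [decide_eq_true_eq] at hαx
        apply bv_inj
        have e1 : g y = g ystar := by
          have e2 := hv y ystar
          rw [hαx y, hv] at e2
          linarith
        rw [hv, hv, e1]
      · rw [if_neg hαx]
        rw [hα] at hαx
        simp only [decide_eq_true_eq, not_forall] at hαx
        obtain ⟨z, hz⟩ := hαx
        apply bv_inj
        have e0 : g z ≠ g ystar := by
          intro e
          apply hz
          apply bv_inj
          rw [hv, hv, e]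
        have e1 : h y = h ystar := by
          by_contra hne
          have a1 := hv z y
          have a2 := hv z ystar
          have a3 := hv ystar y
          have a4 := hv ystar ystar
          have b : ∀ w, bv (G x w) = 0 ∨ bv (G x w) = 1 := by
            intro w
            cases G x w <;> simp [bv]
          have e0' : g z - g ystar ≠ 0 := sub_ne_zero.mpr e0
          have hne' : h y - h ystar ≠ 0 := sub_ne_zero.mpr hne
          rcases b (r z y) with h1 | h1 <;> rcases b (r z ystar) with h2 | h2 <;>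
            rcases b (r ystar y) with h3 | h3 <;> rcases b (r ystar ystar) with h4 | h4 <;>
            rw [h1] at a1 <;> rw [h2] at a2 <;> rw [h3] at a3 <;> rw [h4] at a4 <;>
            first
              | (exact e0' (by linarith))
              | (exact hne' (by linarith))
        rw [hv, hv, e1]
  obtain ⟨d1, hd1, hb1⟩ := hfin _ hG2
  refine ⟨_, hd1, ?_⟩
  have hnb := num_bound (Fintype.card ι)
  have hmax : ((max (20 * D ^ 3) d : ℕ) : ℝ) ≤ ((20 * D ^ 3 : ℕ) : ℝ) + d := by
    have : max (20 * D ^ 3) d ≤ 20 * D ^ 3 + d := by omega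
    exact_mod_cast this
  rw [Nat.cast_add, Nat.cast_add, Nat.cast_one]
  linarith

end mixed

end Pool.Agent.K4H93.LRP
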